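import Mathlib

/-!
Simple random walk on the integers coded by finite lists of signs (the latest step is the head):
crossing numbers, the largest outward crossing numbers on both sides, and averages over
continuations.
-/

set_option autoImplicit false

open Filter Topology

namespace R766.FV

/-- The position. -/
def S : List Bool → ℤ
  | [] => 0
  | b :: h => S h + (if b = true then 1 else -1)

/-- The number of steps from `x` to `x + 1`. -/
def up : List Bool → ℤ → ℕ
  | [], _ => 0
  | b :: h, x => up h x + (if b = true ∧ S h = x then 1 else 0)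

/-- The number of steps from `x + 1` to `x`. -/
def dn : List Bool → ℤ → ℕ
  | [], _ => 0
  | b :: h, x => dn h x + (if b = false ∧ S h = x + 1 then 1 else 0)

/-- The largest outward crossing number on the positive side. -/
def A : List Bool → ℕ
  | [] => 0
  | b :: h => if b = true ∧ 0 ≤ S h then max (A h) (up h (S h) + 1) else A h

/-- The largest outward crossing number on the negative side. -/
def B : List Bool → ℕ
  | [] => 0
  | b :: h => if b = false ∧ S h ≤ 0 then max (B h) (dn h (S h - 1) + 1) else B h

lemma S_cons (b : Bool) (h : List Bool) : S (b :: h) = S h + (if b = true then 1 else -1) := rfl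

lemma up_cons (b : Bool) (h : List Bool) (x : ℤ) :
    up (b :: h) x = up h x + (if b = true ∧ S h = x then 1 else 0) := rfl

lemma dn_cons (b : Bool) (h : List Bool) (x : ℤ) :
    dn (b :: h) x = dn h x + (if b = false ∧ S h = x + 1 then 1 else 0) := rfl

lemma le_A (h : List Bool) : ∀ x : ℤ, 0 ≤ x → up h x ≤ A h := by
  induction h with
  | nil => intro x _; simp [up, A]
  | cons b h ih =>
    intro x hx
    unfold up A
    by_cases h1 : b = true ∧ S h = x
    · have h2 : b = true ∧ 0 ≤ S h := ⟨h1.1, by rw [h1.2]; exact hx⟩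
      rw [if_pos h1, if_pos h2, h1.2]
      exact le_max_right _ _
    · rw [if_neg h1, add_zero]
      split_ifs with h2
      · exact (ih x hx).trans (le_max_left _ _)
      · exact ih x hx

lemma exists_A (h : List Bool) : ∃ x : ℤ, 0 ≤ x ∧ up h x = A h := by
  induction h with
  | nil => exact ⟨0, le_rfl, rfl⟩
  | cons b h ih =>
    obtain ⟨x, hx, hxA⟩ := ih
    by_cases h2 : b = true ∧ 0 ≤ S h
    · rcases le_or_gt (A h) (up h (S h)) with h3 | h3
      · refine ⟨S h, h2.2, ?_⟩
        unfold up A
        rw [if_pos ⟨h2.1, rfl⟩, if_pos h2, max_eq_right (by omega)]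
      · refine ⟨x, hx, ?_⟩
        have h4 : S h ≠ x := by
          intro h5
          rw [h5] at h3
          omega
        unfold up A
        rw [if_neg (fun h5 => h4 h5.2), if_pos h2, max_eq_left (by omega), hxA, add_zero]
    · refine ⟨x, hx, ?_⟩
      unfold up A
      rw [if_neg h2, if_neg, hxA, add_zero]
      rintro ⟨h5, h6⟩
      exact h2 ⟨h5, by rw [h6]; exact hx⟩

lemma le_B (h : List Bool) : ∀ x : ℤ, x < 0 → dn h x ≤ B h := by
  induction h with
  | nil => intro x _; simp [dn, B]
  | cons b h ih =>
    intro x hx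
    unfold dn B
    by_cases h1 : b = false ∧ S h = x + 1
    · have h2 : b = false ∧ S h ≤ 0 := ⟨h1.1, by rw [h1.2]; omega⟩
      rw [if_pos h1, if_pos h2, h1.2, add_sub_cancel_right]
      exact le_max_right _ _
    · rw [if_neg h1, add_zero]
      split_ifs with h2
      · exact (ih x hx).trans (le_max_left _ _)
      · exact ih x hx

lemma exists_B (h : List Bool) : ∃ x : ℤ, x < 0 ∧ dn h x = B h := by
  induction h with
  | nil => exact ⟨-1, by norm_num, rfl⟩
  | cons b h ih =>
    obtain ⟨x, hx, hxA⟩ := ih
    by_cases h2 : b = false ∧ S h ≤ 0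
    · rcases le_or_gt (B h) (dn h (S h - 1)) with h3 | h3
      · refine ⟨S h - 1, by omega, ?_⟩
        unfold dn B
        rw [if_pos ⟨h2.1, by omega⟩, if_pos h2, max_eq_right (by omega)]
      · refine ⟨x, hx, ?_⟩
        have h4 : S h ≠ x + 1 := by
          intro h5
          rw [h5, add_sub_cancel_right] at h3
          omega
        unfold dn B
        rw [if_neg (fun h5 => h4 h5.2), if_pos h2, max_eq_left (by omega), hxA, add_zero]
    · refine ⟨x, hx, ?_⟩
      unfold dn B
      rw [if_neg h2, if_neg, hxA, add_zero]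
      rintro ⟨h5, h6⟩
      exact h2 ⟨h5, by rw [h6]; omega⟩

lemma A_le_cons (b : Bool) (h : List Bool) : A h ≤ A (b :: h) := by
  show A h ≤ if b = true ∧ 0 ≤ S h then max (A h) (up h (S h) + 1) else A h
  split_ifs
  · exact le_max_left _ _
  · exact le_rfl

lemma A_cons_le (b : Bool) (h : List Bool) : A (b :: h) ≤ A h + 1 := by
  show (if b = true ∧ 0 ≤ S h then max (A h) (up h (S h) + 1) else A h) ≤ A h + 1
  split_ifs with h1
  · have := le_A h (S h) h1.2
    omega
  · omega

lemma B_le_cons (b : Bool) (h : List Bool) : B h ≤ B (b :: h) := by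
  show B h ≤ if b = false ∧ S h ≤ 0 then max (B h) (dn h (S h - 1) + 1) else B h
  split_ifs
  · exact le_max_left _ _
  · exact le_rfl

lemma B_cons_le (b : Bool) (h : List Bool) : B (b :: h) ≤ B h + 1 := by
  show (if b = false ∧ S h ≤ 0 then max (B h) (dn h (S h - 1) + 1) else B h) ≤ B h + 1
  split_ifs with h1
  · have := le_B h (S h - 1) (by omega)
    omega
  · omega

lemma A_false (h : List Bool) : A (false :: h) = A h := by
  show (if false = true ∧ 0 ≤ S h then max (A h) (up h (S h) + 1) else A h) = A h
  simp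

lemma B_true (h : List Bool) : B (true :: h) = B h := by
  show (if true = false ∧ S h ≤ 0 then max (B h) (dn h (S h - 1) + 1) else B h) = B h
  simp

/-- Conservation of crossings. -/
lemma up_sub_dn (h : List Bool) (x : ℤ) : (up h x : ℤ) - dn h x =
    if 0 ≤ x ∧ x < S h then 1 else if S h ≤ x ∧ x < 0 then -1 else 0 := by
  induction h with
  | nil =>
    simp only [up, dn, S]
    rw [if_neg (by omega), if_neg (by omega)]
    simp
  | cons b h ih =>
    unfold up dn
    cases b
    · have e : S (false :: h) = S h - 1 := by simp [S]; ring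
      rw [e]
      simp only [Bool.false_eq_true, false_and, if_false, add_zero, true_and]
      by_cases h1 : S h = x + 1
      · rw [if_pos h1]
        push_cast
        rw [show ((up h x : ℤ) - (dn h x + 1)) = (up h x - dn h x) - 1 by ring, ih, h1]
        split_ifs <;> omega
      · rw [if_neg h1, add_zero, ih]
        split_ifs <;> omega
    · have e : S (true :: h) = S h + 1 := by simp [S]
      rw [e]
      simp only [true_and, Bool.true_eq_false, false_and, if_false, add_zero]
      by_cases h1 : S h = x
      · rw [if_pos h1]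
        push_cast
        rw [show ((up h x : ℤ) + 1 - dn h x) = (up h x - dn h x) + 1 by ring, ih, h1]
        split_ifs <;> omega
      · rw [if_neg h1, add_zero, ih]
        split_ifs <;> omega

/-! ### Reflection -/

/-- The reflected path. -/
def flip (h : List Bool) : List Bool := h.map not

lemma flip_cons (b : Bool) (h : List Bool) : flip (b :: h) = (!b) :: flip h := rfl

lemma flip_flip (h : List Bool) : flip (flip h) = h := by
  induction h with
  | nil => rfl
  | cons b h ih => rw [flip_cons, flip_cons, ih, Bool.not_not]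

lemma S_flip (h : List Bool) : S (flip h) = -S h := by
  induction h with
  | nil => rfl
  | cons b h ih =>
    rw [flip_cons]
    unfold S
    rw [ih]
    cases b <;> simp <;> ring

lemma up_flip (h : List Bool) (x : ℤ) : up (flip h) x = dn h (-x - 1) := by
  induction h with
  | nil => rfl
  | cons b h ih =>
    rw [flip_cons]
    unfold up dn
    rw [ih, S_flip]
    congr 1
    have : ((!b) = true ∧ -S h = x) ↔ (b = false ∧ S h = -x - 1 + 1) := by
      constructor
      · rintro ⟨h1, h2⟩
        exact ⟨by simpa using h1, by omega⟩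
      · rintro ⟨h1, h2⟩
        exact ⟨by simpa using h1, by omega⟩
    simp only [this]

lemma dn_flip (h : List Bool) (x : ℤ) : dn (flip h) x = up h (-x - 1) := by
  have := up_flip (flip h) (-x - 1)
  rw [flip_flip] at this
  rw [this]
  congr 1
  ring

lemma A_flip (h : List Bool) : A (flip h) = B h := by
  apply le_antisymm
  · obtain ⟨x, hx, hxA⟩ := exists_A (flip h)
    rw [← hxA, up_flip]
    exact le_B h _ (by omega)
  · obtain ⟨x, hx, hxB⟩ := exists_B h
    rw [← hxB]
    have := up_flip h (-x - 1)
    rw [show -(-x - 1) - 1 = x by ring] at this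
    rw [← this]
    exact le_A _ _ (by omega)

lemma B_flip (h : List Bool) : B (flip h) = A h := by
  have := A_flip (flip h)
  rw [flip_flip] at this
  exact this.symm

/-! ### Concatenation -/

lemma S_append (k h : List Bool) : S (k ++ h) = S k + S h := by
  induction k with
  | nil => simp [S]
  | cons b k ih =>
    rw [List.cons_append, S_cons, S_cons, ih]
    ring

lemma up_append (k h : List Bool) (hS : S h = 0) (x : ℤ) : up (k ++ h) x = up k x + up h x := by
  induction k with
  | nil => simp [up]
  | cons b k ih =>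
    rw [List.cons_append, up_cons, up_cons, ih, S_append, hS, add_zero]
    ring

lemma dn_append (k h : List Bool) (hS : S h = 0) (x : ℤ) : dn (k ++ h) x = dn k x + dn h x := by
  induction k with
  | nil => simp [dn]
  | cons b k ih =>
    rw [List.cons_append, dn_cons, dn_cons, ih, S_append, hS, add_zero]
    ring

lemma A_append_le (k h : List Bool) (hS : S h = 0) : A (k ++ h) ≤ A k + A h := by
  obtain ⟨x, hx, hxA⟩ := exists_A (k ++ h)
  rw [← hxA, up_append k h hS]
  exact add_le_add (le_A _ _ hx) (le_A _ _ hx)

lemma le_B_append (k h : List Bool) (hS : S h = 0) : B k ≤ B (k ++ h) := by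
  obtain ⟨x, hx, hxB⟩ := exists_B k
  have := le_B (k ++ h) x hx
  rw [dn_append k h hS] at this
  omega

/-! ### Averages over continuations -/

open Classical in
/-- The fraction of the continuations of length `N` of `h` that never meet `G` (the history `h`
itself included). -/
noncomputable def r (G : List Bool → Prop) : ℕ → List Bool → ℝ
  | 0, h => if G h then 0 else 1
  | N + 1, h => if G h then 0 else (r G N (false :: h) + r G N (true :: h)) / 2

variable (G : List Bool → Prop)

lemma r_of_mem {h : List Bool} (hG : G h) (N : ℕ) : r G N h = 0 := by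
  cases N <;> simp [r, hG]

lemma r_zero {h : List Bool} (hG : ¬ G h) : r G 0 h = 1 := by simp [r, hG]

lemma r_succ {h : List Bool} (hG : ¬ G h) (N : ℕ) :
    r G (N + 1) h = (r G N (false :: h) + r G N (true :: h)) / 2 := by simp [r, hG]

lemma r_nonneg (N : ℕ) : ∀ h, 0 ≤ r G N h := by
  induction N with
  | zero => intro h; by_cases hG : G h <;> simp [r, hG]
  | succ N ih =>
    intro h
    by_cases hG : G h
    · rw [r_of_mem G hG]
    · rw [r_succ G hG]
      have := ih (false :: h)
      have := ih (true :: h)
      linarith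

lemma r_le_one (N : ℕ) : ∀ h, r G N h ≤ 1 := by
  induction N with
  | zero => intro h; by_cases hG : G h <;> simp [r, hG]
  | succ N ih =>
    intro h
    by_cases hG : G h
    · rw [r_of_mem G hG]; exact zero_le_one
    · rw [r_succ G hG]
      have := ih (false :: h)
      have := ih (true :: h)
      linarith

lemma r_succ_le (N : ℕ) : ∀ h, r G (N + 1) h ≤ r G N h := by
  induction N with
  | zero =>
    intro h
    by_cases hG : G h
    · rw [r_of_mem G hG, r_of_mem G hG]
    · rw [r_zero G hG]; exact r_le_one G 1 h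
  | succ N ih =>
    intro h
    by_cases hG : G h
    · rw [r_of_mem G hG, r_of_mem G hG]
    · rw [r_succ G hG, r_succ G hG]
      have := ih (false :: h)
      have := ih (true :: h)
      linarith

lemma r_anti (h : List Bool) : Antitone (fun N => r G N h) :=
  antitone_nat_of_succ_le fun N => r_succ_le G N h

lemma r_mono {G G' : List Bool → Prop} (hGG : ∀ h, G' h → G h) (N : ℕ) :
    ∀ h, r G N h ≤ r G' N h := by
  induction N with
  | zero =>
    intro h
    by_cases hG : G h
    · rw [r_of_mem G hG]; exact r_nonneg G' 0 h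
    · rw [r_zero G hG, r_zero G' (fun h1 => hG (hGG h h1))]
  | succ N ih =>
    intro h
    by_cases hG : G h
    · rw [r_of_mem G hG]; exact r_nonneg G' _ h
    · rw [r_succ G hG, r_succ G' (fun h1 => hG (hGG h h1))]
      have := ih (false :: h)
      have := ih (true :: h)
      linarith

/-- The probability never to meet `G`. -/
noncomputable def W (h : List Bool) : ℝ := ⨅ N, r G N h

lemma tendsto_r (h : List Bool) : Tendsto (fun N => r G N h) atTop (𝓝 (W G h)) :=
  tendsto_atTop_ciInf (r_anti G h) ⟨0, by rintro _ ⟨N, rfl⟩; exact r_nonneg G N h⟩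

lemma W_le_r (h : List Bool) (N : ℕ) : W G h ≤ r G N h :=
  (r_anti G h).le_of_tendsto (tendsto_r G h) N

lemma W_nonneg (h : List Bool) : 0 ≤ W G h := ge_of_tendsto' (tendsto_r G h) fun N => r_nonneg G N h

lemma W_le_one (h : List Bool) : W G h ≤ 1 := (W_le_r G h 0).trans (r_le_one G 0 h)

lemma W_of_mem {h : List Bool} (hG : G h) : W G h = 0 :=
  le_antisymm ((W_le_r G h 0).trans_eq (r_of_mem G hG 0)) (W_nonneg G h)

lemma W_eq {h : List Bool} (hG : ¬ G h) : W G h = (W G (false :: h) + W G (true :: h)) / 2 := by
  have h1 : Tendsto (fun N => r G (N + 1) h) atTop (𝓝 (W G h)) :=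
    (tendsto_add_atTop_iff_nat 1).2 (tendsto_r G h)
  have h2 : Tendsto (fun N => (r G N (false :: h) + r G N (true :: h)) / 2) atTop
      (𝓝 ((W G (false :: h) + W G (true :: h)) / 2)) :=
    ((tendsto_r G _).add (tendsto_r G _)).div_const 2
  have e : (fun N => r G (N + 1) h) =
      fun N => (r G N (false :: h) + r G N (true :: h)) / 2 := by
    funext N; exact r_succ G hG N
  rw [e] at h1
  exact tendsto_nhds_unique h1 h2

lemma W_le_avg (h : List Bool) : W G h ≤ (W G (false :: h) + W G (true :: h)) / 2 := by
  by_cases hG : G h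
  · rw [W_of_mem G hG]
    have := W_nonneg G (false :: h)
    have := W_nonneg G (true :: h)
    linarith
  · exact (W_eq G hG).le

/-- A maximum principle. -/
lemma maxp (F : List Bool → ℝ) (G I : List Bool → Prop) {θ : ℝ} (hθ : 0 ≤ θ) (hF : ∀ h, F h ≤ 1)
    (hsub : ∀ h, F h ≤ (F (false :: h) + F (true :: h)) / 2)
    (hG : ∀ h, I h → G h → F h ≤ θ) (hI : ∀ h b, I h → ¬ G h → I (b :: h)) (h : List Bool)
    (hI0 : I h) (hr : Tendsto (fun N => r G N h) atTop (𝓝 0)) : F h ≤ θ := by
  have key : ∀ N, ∀ h, I h → F h ≤ θ + r G N h := by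
    intro N
    induction N with
    | zero =>
      intro h hI0
      by_cases hGh : G h
      · have := hG h hI0 hGh
        have := r_nonneg G 0 h
        linarith
      · rw [r_zero G hGh]
        have := hF h
        linarith
    | succ N ih =>
      intro h hI0
      by_cases hGh : G h
      · have := hG h hI0 hGh
        have := r_nonneg G (N + 1) h
        linarith
      · rw [r_succ G hGh]
        have h1 := ih _ (hI h false hI0 hGh)
        have h2 := ih _ (hI h true hI0 hGh)
        have h3 := hsub h
        linarith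
  have h1 : Tendsto (fun N => θ + r G N h) atTop (𝓝 (θ + 0)) := tendsto_const_nhds.add hr
  rw [add_zero] at h1
  exact ge_of_tendsto' h1 fun N => key N h hI0

/-! ### Hitting a point -/

lemma hit_sum (c : ℤ) (m : ℕ) (hm : 1 ≤ m) (N : ℕ) : ∀ h : List Bool, |S h - c| ≤ m →
    ∑ k ∈ Finset.range N, r (fun h => S h = c) k h ≤
      ((m : ℝ) ^ 2 - ((S h - c : ℤ) : ℝ) ^ 2) + N * (|((S h - c : ℤ) : ℝ)| / m) := by
  have hm' : (1 : ℝ) ≤ m := by exact_mod_cast hm
  induction N with
  | zero =>
    intro h hh
    have h1 : |((S h - c : ℤ) : ℝ)| ≤ m := by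
      have : ((|S h - c| : ℤ) : ℝ) ≤ ((m : ℤ) : ℝ) := by exact_mod_cast hh
      simpa [Int.cast_abs] using this
    have h2 : ((S h - c : ℤ) : ℝ) ^ 2 ≤ (m : ℝ) ^ 2 := by
      rw [sq_le_sq, abs_of_nonneg (by positivity : (0 : ℝ) ≤ m)]
      exact h1
    simp only [Finset.range_zero, Finset.sum_empty, Nat.cast_zero, zero_mul, add_zero]
    linarith
  | succ N ih =>
    intro h hh
    have h1 : |((S h - c : ℤ) : ℝ)| ≤ m := by
      have : ((|S h - c| : ℤ) : ℝ) ≤ ((m : ℤ) : ℝ) := by exact_mod_cast hh
      simpa [Int.cast_abs] using this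
    have h2 : ((S h - c : ℤ) : ℝ) ^ 2 ≤ (m : ℝ) ^ 2 := by
      rw [sq_le_sq, abs_of_nonneg (by positivity : (0 : ℝ) ≤ m)]
      exact h1
    by_cases hG : S h = c
    · have h3 : ∀ k, r (fun h => S h = c) k h = 0 := fun k => r_of_mem _ hG k
      simp only [h3, Finset.sum_const_zero]
      have : 0 ≤ ((N + 1 : ℕ) : ℝ) * (|((S h - c : ℤ) : ℝ)| / m) := by positivity
      linarith
    by_cases hmm : |S h - c| = m
    · have h3 : |((S h - c : ℤ) : ℝ)| = m := by
        have : ((|S h - c| : ℤ) : ℝ) = ((m : ℤ) : ℝ) := by exact_mod_cast hmm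
        simpa [Int.cast_abs] using this
      rw [h3, div_self (by linarith), mul_one]
      calc ∑ k ∈ Finset.range (N + 1), r (fun h => S h = c) k h
          ≤ ∑ k ∈ Finset.range (N + 1), (1 : ℝ) :=
            Finset.sum_le_sum fun k _ => r_le_one _ k h
        _ = ((N + 1 : ℕ) : ℝ) := by simp
        _ ≤ _ := by linarith
    · have hlt : |S h - c| < m := lt_of_le_of_ne hh hmm
      have hne : S h - c ≠ 0 := fun h3 => hG (by omega)
      rw [Finset.sum_range_succ', r_zero _ hG]
      have e1 : ∀ k, r (fun h => S h = c) (k + 1) h =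
          (r (fun h => S h = c) k (false :: h) + r (fun h => S h = c) k (true :: h)) / 2 :=
        fun k => r_succ _ hG k
      simp only [e1]
      rw [← Finset.sum_div, Finset.sum_add_distrib]
      have sf : S (false :: h) - c = (S h - c) - 1 := by simp [S]; ring
      have st : S (true :: h) - c = (S h - c) + 1 := by simp [S]; ring
      have i1 := ih (false :: h) (by rw [sf, abs_le]; rw [abs_lt] at hlt; omega)
      have i2 := ih (true :: h) (by rw [st, abs_le]; rw [abs_lt] at hlt; omega)
      rw [sf] at i1
      rw [st] at i2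
      set s : ℤ := S h - c with hs
      have habs : |((s - 1 : ℤ) : ℝ)| + |((s + 1 : ℤ) : ℝ)| = 2 * |(s : ℝ)| := by
        push_cast
        rcases lt_or_gt_of_ne hne with h3 | h3
        · have h4 : (s : ℝ) ≤ -1 := by exact_mod_cast (by omega : s ≤ -1)
          rw [abs_of_nonpos (by linarith), abs_of_nonpos (by linarith),
            abs_of_nonpos (by linarith)]
          ring
        · have h4 : (1 : ℝ) ≤ s := by exact_mod_cast (by omega : 1 ≤ s)
          rw [abs_of_nonneg (by linarith), abs_of_nonneg (by linarith),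
            abs_of_nonneg (by linarith)]
          ring
      have h5 : (N : ℝ) * (|((s - 1 : ℤ) : ℝ)| / m) + N * (|((s + 1 : ℤ) : ℝ)| / m) =
          2 * (N * (|(s : ℝ)| / m)) := by
        rw [← mul_add, ← add_div, habs]
        ring
      have h6 : ((N + 1 : ℕ) : ℝ) * (|(s : ℝ)| / m) = N * (|(s : ℝ)| / m) + |(s : ℝ)| / m := by
        push_cast; ring
      have h7 : 0 ≤ |(s : ℝ)| / m := by positivity
      rw [h6]
      push_cast at i1 i2 h5 ⊢
      nlinarith

lemma hit (c : ℤ) (h : List Bool) :
    Tendsto (fun N => r (fun h => S h = c) N h) atTop (𝓝 0) := by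
  have hbound : ∀ m : ℕ, 1 ≤ m → |S h - c| ≤ m → ∀ N : ℕ, 1 ≤ N →
      r (fun h => S h = c) N h ≤ (m : ℝ) ^ 2 / N + |((S h - c : ℤ) : ℝ)| / m := by
    intro m hm hh N hN
    have hN' : (0 : ℝ) < N := by exact_mod_cast hN
    have h1 := hit_sum c m hm N h hh
    have h2 : (N : ℝ) * r (fun h => S h = c) N h ≤
        ∑ k ∈ Finset.range N, r (fun h => S h = c) k h := by
      calc (N : ℝ) * r (fun h => S h = c) N h =
          ∑ k ∈ Finset.range N, r (fun h => S h = c) N h := by simp
        _ ≤ _ := Finset.sum_le_sum fun k hk =>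
            r_anti (fun h => S h = c) h (Finset.mem_range.1 hk).le
    have h3 : (N : ℝ) * r (fun h => S h = c) N h ≤
        (m : ℝ) ^ 2 + N * (|((S h - c : ℤ) : ℝ)| / m) := by
      have := sq_nonneg ((S h - c : ℤ) : ℝ)
      linarith
    have h4 : r (fun h => S h = c) N h ≤
        ((m : ℝ) ^ 2 + N * (|((S h - c : ℤ) : ℝ)| / m)) / N := by
      rw [le_div_iff₀ hN']
      linarith
    refine h4.trans (le_of_eq ?_)
    field_simp
  rw [Metric.tendsto_atTop]
  intro ε hε
  have t1 : Tendsto (fun m : ℕ => |((S h - c : ℤ) : ℝ)| / (m : ℝ)) atTop (𝓝 0) :=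
    tendsto_const_div_atTop_nhds_zero_nat _
  obtain ⟨m0, hm0⟩ := (Metric.tendsto_atTop.1 t1) (ε / 2) (half_pos hε)
  set m : ℕ := max (max m0 1) (S h - c).natAbs with hmdef
  have hm1 : 1 ≤ m := by omega
  have hm2 : |S h - c| ≤ m := by
    rw [Int.abs_eq_natAbs]
    exact_mod_cast le_max_right _ _
  have hm3 := hm0 m (by omega)
  rw [Real.dist_eq, sub_zero] at hm3
  have hm4 := lt_of_abs_lt hm3
  have t2 : Tendsto (fun N : ℕ => (m : ℝ) ^ 2 / (N : ℝ)) atTop (𝓝 0) :=
    tendsto_const_div_atTop_nhds_zero_nat _
  obtain ⟨N0, hN0⟩ := (Metric.tendsto_atTop.1 t2) (ε / 2) (half_pos hε)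
  refine ⟨max N0 1, fun N hN => ?_⟩
  have hN1 := hN0 N (le_trans (le_max_left _ _) hN)
  rw [Real.dist_eq, sub_zero] at hN1
  have hN2 := lt_of_abs_lt hN1
  have := hbound m hm1 hm2 N (le_trans (le_max_right _ _) hN)
  rw [Real.dist_eq, sub_zero, abs_of_nonneg (r_nonneg _ N h)]
  linarith

end R766.FV
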