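import Pool.Agent.R766.FV.Link

/-!
Deterministic facts about the sites with the largest one-sided arrival number.
-/

set_option autoImplicit false

namespace R766.FV

/-- The larger one of the two arrival numbers of a site. -/
def xiS (h : List Bool) (y : ℤ) : ℕ := max (up h (y - 1)) (dn h y)

/-- The largest crossing number. -/
def Mx (h : List Bool) : ℕ := max (A h) (B h)

lemma up_le_dn {h : List Bool} {x : ℤ} (hx : x < 0) : up h x ≤ dn h x := by
  have := up_sub_dn h x
  rw [if_neg (by omega)] at this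
  split_ifs at this <;> omega

lemma dn_le_up {h : List Bool} {x : ℤ} (hx : 0 ≤ x) : dn h x ≤ up h x := by
  have := up_sub_dn h x
  split_ifs at this <;> omega

lemma up_le_Mx (h : List Bool) (x : ℤ) : up h x ≤ Mx h := by
  unfold Mx
  rcases lt_or_ge x 0 with h1 | h1
  · exact ((up_le_dn h1).trans (le_B h x h1)).trans (le_max_right _ _)
  · exact (le_A h x h1).trans (le_max_left _ _)

lemma dn_le_Mx (h : List Bool) (x : ℤ) : dn h x ≤ Mx h := by
  unfold Mx
  rcases lt_or_ge x 0 with h1 | h1
  · exact (le_B h x h1).trans (le_max_right _ _)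
  · exact ((dn_le_up h1).trans (le_A h x h1)).trans (le_max_left _ _)

lemma xiS_le (h : List Bool) (y : ℤ) : xiS h y ≤ Mx h :=
  max_le (up_le_Mx h _) (dn_le_Mx h _)

lemma exists_Mx (h : List Bool) : ∃ y, xiS h y = Mx h := by
  rcases le_total (A h) (B h) with h1 | h1
  · obtain ⟨x, hx, hB⟩ := exists_B h
    refine ⟨x, le_antisymm (xiS_le h x) ?_⟩
    unfold Mx xiS
    rw [max_eq_right h1, ← hB]
    exact le_max_right _ _
  · obtain ⟨x, hx, hA⟩ := exists_A h
    refine ⟨x + 1, le_antisymm (xiS_le h _) ?_⟩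
    unfold Mx xiS
    rw [max_eq_left h1, ← hA, add_sub_cancel_right]
    exact le_max_left _ _

/-- The favorite one-side sites. -/
def K (h : List Bool) : Set ℤ := {y | xiS h y = Mx h}

lemma K_eq (h : List Bool) : {y | ∀ z, xiS h z ≤ xiS h y} = K h := by
  ext y
  constructor
  · intro hy
    obtain ⟨z, hz⟩ := exists_Mx h
    exact le_antisymm (xiS_le h y) (hz ▸ hy z)
  · intro hy z
    have : xiS h y = Mx h := hy
    rw [this]
    exact xiS_le h z

lemma finite_up (h : List Bool) : {x | up h x ≠ 0}.Finite := by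
  induction h with
  | nil => simp [up]
  | cons b h ih =>
    refine (ih.union (Set.finite_singleton (S h))).subset ?_
    intro x hx
    by_cases h1 : S h = x
    · right; exact h1.symm
    · left
      have hx' : up (b :: h) x ≠ 0 := hx
      rw [up_cons, if_neg (fun h2 => h1 h2.2), add_zero] at hx'
      exact hx'

lemma finite_dn (h : List Bool) : {x | dn h x ≠ 0}.Finite := by
  induction h with
  | nil => simp [dn]
  | cons b h ih =>
    refine (ih.union (Set.finite_singleton (S h - 1))).subset ?_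
    intro x hx
    by_cases h1 : S h = x + 1
    · right; simp only [Set.mem_singleton_iff]; omega
    · left
      have hx' : dn (b :: h) x ≠ 0 := hx
      rw [dn_cons, if_neg (fun h2 => h1 h2.2), add_zero] at hx'
      exact hx'

lemma finite_K {h : List Bool} (hM : 1 ≤ Mx h) : (K h).Finite := by
  have h1 : ((fun x : ℤ => x + 1) '' {x | up h x ≠ 0}).Finite := (finite_up h).image _
  refine (h1.union (finite_dn h)).subset ?_
  intro y hy
  have hy' : xiS h y = Mx h := hy
  unfold xiS at hy'
  rcases max_choice (up h (y - 1)) (dn h y) with h2 | h2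
  · left
    refine ⟨y - 1, ?_, by simp⟩
    show up h (y - 1) ≠ 0
    omega
  · right
    show dn h y ≠ 0
    omega

lemma three_le {s : Set ℤ} (hs : s.Finite) {a b c : ℤ} (h1 : a < b) (h2 : b < c) (ha : a ∈ s)
    (hb : b ∈ s) (hc : c ∈ s) : 3 ≤ s.ncard := by
  have h3 : ({a, b, c} : Finset ℤ).card = 3 := by
    rw [Finset.card_insert_of_notMem, Finset.card_insert_of_notMem, Finset.card_singleton]
    · simp; omega
    · simp; omega
  rw [← h3, ← Set.ncard_coe_finset]
  refine Set.ncard_le_ncard ?_ hs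
  intro x hx
  simp only [Finset.coe_insert, Finset.coe_singleton, Set.mem_insert_iff,
    Set.mem_singleton_iff] at hx
  rcases hx with rfl | rfl | rfl <;> assumption

lemma tie {h : List Bool} (hAB : A h = B h) (hM : 1 ≤ A h) : 3 ≤ (K h).ncard := by
  have hMx : Mx h = A h := by unfold Mx; rw [← hAB, max_self]
  have hfin := finite_K (h := h) (by omega)
  obtain ⟨x, hx, hA⟩ := exists_A h
  obtain ⟨y, hy, hB⟩ := exists_B h
  have mem_up : ∀ z, up h z = A h → z + 1 ∈ K h := by
    intro z hz
    refine le_antisymm (xiS_le h _) ?_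
    unfold xiS
    rw [hMx, ← hz, add_sub_cancel_right]
    exact le_max_left _ _
  have mem_dn : ∀ z, dn h z = A h → z ∈ K h := by
    intro z hz
    refine le_antisymm (xiS_le h _) ?_
    unfold xiS
    rw [hMx, ← hz]
    exact le_max_right _ _
  rcases le_total (S h) 0 with hS | hS
  · have h1 := up_sub_dn h x
    rw [if_neg (by omega), if_neg (by omega)] at h1
    exact three_le hfin (show y < x by omega) (show x < x + 1 by omega) (mem_dn y (by omega))
      (mem_dn x (by omega)) (mem_up x hA)
  · have h1 := up_sub_dn h y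
    rw [if_neg (by omega), if_neg (by omega)] at h1
    exact three_le hfin (show y < y + 1 by omega) (show y + 1 < x + 1 by omega)
      (mem_dn y (by omega)) (mem_up y (by omega)) (mem_up x hA)

lemma xiS_cons_of_ne {b : Bool} {h : List Bool} {y : ℤ} (hy : y ≠ S (b :: h)) :
    xiS (b :: h) y = xiS h y := by
  unfold xiS
  rw [up_cons, dn_cons, if_neg, if_neg]
  · simp
  · rintro ⟨h1, h2⟩
    apply hy
    rw [S_cons, h1, h2]
    simp
  · rintro ⟨h1, h2⟩
    apply hy
    rw [S_cons, h1, h2]
    simp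

lemma K_cons_eq {b : Bool} {h : List Bool} (hM : Mx (b :: h) = Mx h) :
    K (b :: h) ⊆ insert (S (b :: h)) (K h) := by
  intro y hy
  by_cases h1 : y = S (b :: h)
  · exact Or.inl h1
  · right
    have hy' : xiS (b :: h) y = Mx (b :: h) := hy
    rw [xiS_cons_of_ne h1, hM] at hy'
    exact hy'

lemma Mx_le_cons (b : Bool) (h : List Bool) : Mx h ≤ Mx (b :: h) :=
  max_le_max (A_le_cons b h) (B_le_cons b h)

lemma K_cons_lt {b : Bool} {h : List Bool} (hM : Mx (b :: h) ≠ Mx h) :
    K (b :: h) ⊆ {S (b :: h)} := by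
  intro y hy
  by_contra h1
  have h1' : y ≠ S (b :: h) := h1
  have hy' : xiS (b :: h) y = Mx (b :: h) := hy
  rw [xiS_cons_of_ne h1'] at hy'
  have h2 := xiS_le h y
  have h3 := Mx_le_cons b h
  omega

section

variable (β : ℕ → Bool)

lemma A_hl_mono : Monotone fun n => A (hl β n) :=
  monotone_nat_of_le_succ fun n => A_le_cons (β n) (hl β n)

lemma B_hl_mono : Monotone fun n => B (hl β n) :=
  monotone_nat_of_le_succ fun n => B_le_cons (β n) (hl β n)

lemma find_three (N : ℕ) : ∀ n, N ≤ n → Mx (hl β N) < Mx (hl β n) → 3 ≤ (K (hl β n)).ncard →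
    ∃ m, N < m ∧ m ≤ n ∧ (K (hl β m)).ncard = 3 := by
  intro n
  induction n with
  | zero =>
    intro h1 h2
    have : N = 0 := by omega
    subst this
    omega
  | succ n ih =>
    intro h1 h2 h3
    have hNn : N ≤ n := by
      by_contra h4
      have : N = n + 1 := by omega
      subst this
      omega
    by_cases h4 : (K (hl β (n + 1))).ncard = 3
    · exact ⟨n + 1, by omega, le_rfl, h4⟩
    · have h5 : 4 ≤ (K (hl β (n + 1))).ncard := by omega
      have h6 : Mx (β n :: hl β n) = Mx (hl β n) := by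
        by_contra h7
        have h8 := Set.ncard_le_ncard (K_cons_lt h7) (Set.finite_singleton _)
        rw [Set.ncard_singleton] at h8
        have h9 : (K (β n :: hl β n)).ncard = (K (hl β (n + 1))).ncard := rfl
        omega
      have h7 : Mx (hl β N) < Mx (hl β n) := by
        have : Mx (hl β (n + 1)) = Mx (hl β n) := h6
        omega
      have hfin : (K (hl β n)).Finite := finite_K (by omega)
      have h8 := Set.ncard_le_ncard (K_cons_eq h6) (hfin.insert _)
      have h9 := Set.ncard_insert_le (S (β n :: hl β n)) (K (hl β n))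
      have h10 : (K (β n :: hl β n)).ncard = (K (hl β (n + 1))).ncard := rfl
      obtain ⟨m, hm1, hm2, hm3⟩ := ih hNn h7 (by omega)
      exact ⟨m, hm1, by omega, hm3⟩

lemma exists_tie (hL : ∀ n, ∃ k, LdL (hl β (n + k))) (hR : ∀ n, ∃ k, LdR (hl β (n + k)))
    (n : ℕ) : ∃ m, n ≤ m ∧ A (hl β m) = B (hl β m) := by
  classical
  obtain ⟨k1, hk1⟩ := hL n
  have hex : ∃ k, LdR (hl β (n + k1 + k)) := hR (n + k1)
  set k := Nat.find hex with hk
  have hk2 : B (hl β (n + k1 + k)) ≤ A (hl β (n + k1 + k)) := Nat.find_spec hex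
  refine ⟨n + k1 + k, by omega, le_antisymm ?_ hk2⟩
  rcases Nat.eq_zero_or_pos k with h0 | h0
  · rw [h0, add_zero]; exact hk1
  · have h1 : ¬ LdR (hl β (n + k1 + (k - 1))) := Nat.find_min hex (by omega)
    unfold LdR at h1
    have h2 : n + k1 + k = (n + k1 + (k - 1)) + 1 := by omega
    rw [h2]
    have h3 : A (hl β ((n + k1 + (k - 1)) + 1)) ≤ A (hl β (n + k1 + (k - 1))) + 1 :=
      A_cons_le _ _
    have h4 : B (hl β (n + k1 + (k - 1))) ≤ B (hl β ((n + k1 + (k - 1)) + 1)) :=
      B_le_cons _ _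
    omega

lemma A_unbounded (hI : ∀ n, ∃ k, GI (hl β (n + k))) (C : ℕ) : ∃ n, C ≤ A (hl β n) := by
  induction C with
  | zero => exact ⟨0, by omega⟩
  | succ C ih =>
    obtain ⟨n, hn⟩ := ih
    obtain ⟨k, h', h1, h2⟩ := hI (n + 1)
    have e : n + 1 + k = (n + k) + 1 := by ring
    rw [e] at h1 h2
    have h3 : h' = hl β (n + k) := by
      have : hl β (n + k + 1) = β (n + k) :: hl β (n + k) := rfl
      rw [this] at h1
      exact (List.cons.inj h1).2.symm
    have h4 := A_hl_mono β (show n ≤ n + k by omega)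
    simp only at h4
    refine ⟨n + k + 1, ?_⟩
    rw [h2, h3]
    omega

theorem three_infinite (hL : ∀ n, ∃ k, LdL (hl β (n + k))) (hR : ∀ n, ∃ k, LdR (hl β (n + k)))
    (hI : ∀ n, ∃ k, GI (hl β (n + k))) : {n | (K (hl β n)).ncard = 3}.Infinite := by
  rw [Set.infinite_iff_exists_gt]
  intro N
  obtain ⟨n0, hn0⟩ := A_unbounded β hI (Mx (hl β N) + 1)
  obtain ⟨m, hm, hAB⟩ := exists_tie β hL hR (max n0 N)
  have h1 : A (hl β n0) ≤ A (hl β m) := A_hl_mono β (by omega)
  have h2 : A (hl β m) ≤ Mx (hl β m) := le_max_left _ _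
  obtain ⟨m', h3, h4, h5⟩ := find_three β N m (by omega) (by omega) (tie hAB (by omega))
  exact ⟨m', h5, h3⟩

end

end R766.FV
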