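import Pool.Agent.R766.FV.Det

/-!
Deterministic facts about the sites with the largest one-sided departure number.
-/

set_option autoImplicit false

namespace R766.FV

/-- The larger one of the two departure numbers of a site. -/
def xiD (h : List Bool) (y : ℤ) : ℕ := max (up h y) (dn h (y - 1))

lemma xiD_le (h : List Bool) (y : ℤ) : xiD h y ≤ Mx h :=
  max_le (up_le_Mx h _) (dn_le_Mx h _)

lemma exists_MxD (h : List Bool) : ∃ y, xiD h y = Mx h := by
  rcases le_total (A h) (B h) with h1 | h1
  · obtain ⟨x, hx, hB⟩ := exists_B h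
    refine ⟨x + 1, le_antisymm (xiD_le h _) ?_⟩
    unfold Mx xiD
    rw [max_eq_right h1, ← hB, add_sub_cancel_right]
    exact le_max_right _ _
  · obtain ⟨x, hx, hA⟩ := exists_A h
    refine ⟨x, le_antisymm (xiD_le h x) ?_⟩
    unfold Mx xiD
    rw [max_eq_left h1, ← hA]
    exact le_max_left _ _

/-- The favorite one-side sites (departure version). -/
def Kd (h : List Bool) : Set ℤ := {y | xiD h y = Mx h}

lemma Kd_eq (h : List Bool) : {y | ∀ z, xiD h z ≤ xiD h y} = Kd h := by
  ext y
  constructor
  · intro hy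
    obtain ⟨z, hz⟩ := exists_MxD h
    exact le_antisymm (xiD_le h y) (hz ▸ hy z)
  · intro hy z
    have : xiD h y = Mx h := hy
    rw [this]
    exact xiD_le h z

lemma finite_Kd {h : List Bool} (hM : 1 ≤ Mx h) : (Kd h).Finite := by
  have h1 : ((fun x : ℤ => x + 1) '' {x | dn h x ≠ 0}).Finite := (finite_dn h).image _
  refine ((finite_up h).union h1).subset ?_
  intro y hy
  have hy' : xiD h y = Mx h := hy
  unfold xiD at hy'
  rcases max_choice (up h y) (dn h (y - 1)) with h2 | h2
  · left
    show up h y ≠ 0
    omega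
  · right
    refine ⟨y - 1, ?_, by simp⟩
    show dn h (y - 1) ≠ 0
    omega

lemma four_le {s : Set ℤ} (hs : s.Finite) {a b c d : ℤ} (h1 : a < b) (h2 : b < c) (h3 : c < d)
    (ha : a ∈ s) (hb : b ∈ s) (hc : c ∈ s) (hd : d ∈ s) : 4 ≤ s.ncard := by
  have h4 : ({a, b, c, d} : Finset ℤ).card = 4 := by
    rw [Finset.card_insert_of_notMem, Finset.card_insert_of_notMem,
      Finset.card_insert_of_notMem, Finset.card_singleton]
    · simp; omega
    · simp; omega
    · simp; omega
  rw [← h4, ← Set.ncard_coe_finset]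
  refine Set.ncard_le_ncard ?_ hs
  intro x hx
  simp only [Finset.coe_insert, Finset.coe_singleton, Set.mem_insert_iff,
    Set.mem_singleton_iff] at hx
  rcases hx with rfl | rfl | rfl | rfl <;> assumption

lemma mem_up {h : List Bool} {M : ℕ} (hM : Mx h = M) {z : ℤ} (hz : up h z = M) : z ∈ Kd h := by
  refine le_antisymm (xiD_le h _) ?_
  unfold xiD
  rw [hM, ← hz]
  exact le_max_left _ _

lemma mem_dn {h : List Bool} {M : ℕ} (hM : Mx h = M) {z : ℤ} (hz : dn h (z - 1) = M) :
    z ∈ Kd h := by
  refine le_antisymm (xiD_le h _) ?_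
  unfold xiD
  rw [hM, ← hz]
  exact le_max_right _ _

/-- At least four favorite one-side sites. -/
def G4 (h : List Bool) : Prop := 4 ≤ (Kd h).ncard

lemma G4_of {h : List Bool} {M : ℕ} (hA : A h = M) (hB : B h = M) {x y w : ℤ} (hx : up h x = M)
    (hx' : dn h x = M) (hy : dn h y = M) (hw : w ≤ y) (hw' : w ∈ Kd h) (hyx : y + 1 < x)
    (hM : 1 ≤ M) : G4 h := by
  have hMx : Mx h = M := by unfold Mx; rw [hA, hB, max_self]
  refine four_le (finite_Kd (by omega)) (show w < y + 1 by omega) hyx (show x < x + 1 by omega)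
    hw' ?_ ?_ ?_
  · exact mem_dn hMx (by rw [add_sub_cancel_right]; exact hy)
  · exact mem_up hMx hx
  · exact mem_dn hMx (by rw [add_sub_cancel_right]; exact hx')

lemma G4_of_zero {h : List Bool} (hS : S h = 0) (hAB : A h = B h) (h0 : up h 0 < A h)
    (h1 : dn h (-1) < A h) : G4 h := by
  obtain ⟨x, hx, hxA⟩ := exists_A h
  obtain ⟨y, hy, hyB⟩ := exists_B h
  have hx0 : x ≠ 0 := by rintro rfl; omega
  have hy1 : y ≠ -1 := by rintro rfl; omega
  have e1 := up_sub_dn h x
  have e2 := up_sub_dn h y
  rw [if_neg (by omega), if_neg (by omega)] at e1 e2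
  have hMx : Mx h = A h := by unfold Mx; rw [← hAB, max_self]
  exact G4_of (M := A h) rfl hAB.symm hxA (by omega) (by omega) le_rfl
    (mem_up hMx (show up h y = A h by omega)) (by omega) (by omega)

/-- A tie with the walk behind the unique leading edge of the negative side. -/
def Tie1 (h : List Bool) : Prop := ∃ x y : ℤ, 1 ≤ x ∧ y ≤ -2 ∧ 1 ≤ A h ∧ up h x = A h ∧
  dn h y = A h ∧ B h = A h ∧ S h ≤ y ∧ ∀ z : ℤ, z < 0 → z ≠ y → dn h z < A h

lemma A_cons_neg {b : Bool} {h : List Bool} (hS : S h < 0) : A (b :: h) = A h := by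
  show (if b = true ∧ 0 ≤ S h then max (A h) (up h (S h) + 1) else A h) = A h
  rw [if_neg]
  rintro ⟨_, h1⟩
  omega

lemma tie_step {h : List Bool} (hT : Tie1 h) (b : Bool) : G4 (b :: h) ∨ Tie1 (b :: h) := by
  obtain ⟨x, y, hx, hy, hA1, hxA, hyA, hB, hS, hz⟩ := hT
  have hA' : A (b :: h) = A h := A_cons_neg (by omega)
  have hup : up (b :: h) x = A h := by
    rw [up_cons, if_neg, add_zero, hxA]
    rintro ⟨_, h1⟩
    omega
  cases b
  · -- a step to the left
    have hdy : dn (false :: h) y = A h := by
      rw [dn_cons, if_neg, add_zero, hyA]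
      rintro ⟨_, h1⟩
      omega
    have hdz : dn (false :: h) (S h - 1) = dn h (S h - 1) + 1 := by
      rw [dn_cons, if_pos ⟨rfl, by ring⟩]
    have h1 := hz (S h - 1) (by omega) (by omega)
    have hB' : B (false :: h) = A h := by
      show (if false = false ∧ S h ≤ 0 then max (B h) (dn h (S h - 1) + 1) else B h) = A h
      rw [if_pos ⟨rfl, by omega⟩, hB]
      omega
    have hS' : S (false :: h) = S h - 1 := by rw [S_cons]; simp; ring
    have e := up_sub_dn (false :: h) x
    rw [if_neg (by omega), if_neg (by omega)] at e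
    have hMx : Mx (false :: h) = A h := by unfold Mx; rw [hA', hB', max_self]
    by_cases h2 : dn h (S h - 1) + 1 = A h
    · left
      exact G4_of (M := A h) hA' hB' hup (by omega) hdy hS
        (mem_dn hMx (by rw [hdz, h2])) (by omega) hA1
    · right
      refine ⟨x, y, hx, hy, by omega, by omega, by omega, by omega, by omega, ?_⟩
      intro z hz0 hzy
      rw [dn_cons, hA']
      split_ifs with h3
      · have : z = S h - 1 := by omega
        subst this
        omega
      · have := hz z hz0 hzy
        omega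
  · -- a step to the right
    have hd : ∀ z, dn (true :: h) z = dn h z := by
      intro z
      rw [dn_cons]
      simp
    have hB' : B (true :: h) = A h := by rw [B_true, hB]
    have hS' : S (true :: h) = S h + 1 := by rw [S_cons]; simp
    by_cases h2 : S h = y
    · left
      have e0 := up_sub_dn h y
      rw [if_neg (by omega), if_pos (by omega)] at e0
      have hu : up (true :: h) y = A h := by
        rw [up_cons, if_pos ⟨rfl, h2⟩]
        omega
      have e := up_sub_dn (true :: h) x
      rw [if_neg (by omega), if_neg (by omega)] at e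
      have hMx : Mx (true :: h) = A h := by unfold Mx; rw [hA', hB', max_self]
      exact G4_of (M := A h) hA' hB' hup (by omega) (by rw [hd, hyA]) le_rfl
        (mem_up hMx hu) (by omega) hA1
    · right
      refine ⟨x, y, hx, hy, by omega, by omega, by rw [hd]; omega, by omega, by omega, ?_⟩
      intro z hz0 hzy
      rw [hd, hA']
      exact hz z hz0 hzy

lemma tie_start {b : Bool} {h : List Bool} (h1 : B h < A h) (h2 : A (b :: h) ≤ B (b :: h))
    (h3 : up h 0 < A h) (h4 : dn (b :: h) (-1) < A h) : Tie1 (b :: h) := by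
  have hb : b = false := by
    cases b
    · rfl
    · exfalso
      have e1 := B_true h
      have e2 := A_le_cons true h
      omega
  subst hb
  have hA' := A_false h
  have hB' : B (false :: h) ≤ B h + 1 := B_cons_le _ _
  have hBe : B (false :: h) = A h := by omega
  have hS : S h ≤ 0 := by
    by_contra hS
    have : B (false :: h) = B h := by
      show (if false = false ∧ S h ≤ 0 then max (B h) (dn h (S h - 1) + 1) else B h) = B h
      rw [if_neg]
      rintro ⟨_, h1⟩
      omega
    omega
  have hBd : B (false :: h) = max (B h) (dn h (S h - 1) + 1) := by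
    show (if false = false ∧ S h ≤ 0 then max (B h) (dn h (S h - 1) + 1) else B h) = _
    rw [if_pos ⟨rfl, hS⟩]
  have hd : dn h (S h - 1) + 1 = A h := by omega
  obtain ⟨x, hx, hxA⟩ := exists_A h
  have hx0 : x ≠ 0 := by rintro rfl; omega
  have hS' : S (false :: h) = S h - 1 := by rw [S_cons]; simp; ring
  have hdz : dn (false :: h) (S h - 1) = dn h (S h - 1) + 1 := by
    rw [dn_cons, if_pos ⟨rfl, by ring⟩]
  have hS1 : S h - 1 ≠ -1 := by
    intro h5
    rw [h5] at hdz hd
    omega
  refine ⟨x, S h - 1, by omega, by omega, by omega, ?_, by omega, by omega, by omega, ?_⟩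
  · rw [up_cons]
    simp
    omega
  · intro z hz hzS
    rw [dn_cons, if_neg, add_zero, hA']
    · have := le_B h z hz
      omega
    · rintro ⟨_, h5⟩
      omega

/-- `G` has been met on the way from `h` to `k ++ h`. -/
def HitBy (G : List Bool → Prop) (h : List Bool) : List Bool → Prop
  | [] => G h
  | b :: k => G (b :: (k ++ h)) ∨ HitBy G h k

lemma HitBy_of_mem {G : List Bool → Prop} {h k : List Bool} (hG : G (k ++ h)) : HitBy G h k := by
  cases k with
  | nil => exact hG
  | cons b k => exact Or.inl hG

lemma up_le_cons (b : Bool) (h : List Bool) (x : ℤ) : up h x ≤ up (b :: h) x := by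
  rw [up_cons]; omega

lemma dn_le_cons (b : Bool) (h : List Bool) (x : ℤ) : dn h x ≤ dn (b :: h) x := by
  rw [dn_cons]; omega

lemma A_le_append (k h : List Bool) : A h ≤ A (k ++ h) := by
  induction k with
  | nil => exact le_rfl
  | cons b k ih => exact ih.trans (A_le_cons b _)

/-- If the lead changes from the positive side to the negative side and the two edges at the
origin do not matter then there are four favorite sites in between. -/
lemma change (h : List Bool) : ∀ k : List Bool, B h < A h → up (k ++ h) 0 < A h →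
    dn (k ++ h) (-1) < A h → ¬ HitBy G4 h k → B (k ++ h) < A (k ++ h) ∨ Tie1 (k ++ h) := by
  intro k
  induction k with
  | nil => intro h1 _ _ _; exact Or.inl h1
  | cons b k ih =>
    intro h1 h2 h3 h4
    have h5 : ¬ G4 (b :: (k ++ h)) := fun h6 => h4 (Or.inl h6)
    have h6 : ¬ HitBy G4 h k := fun h7 => h4 (Or.inr h7)
    have h7 : up (k ++ h) 0 < A h := lt_of_le_of_lt (up_le_cons b _ _) h2
    have h8 : dn (k ++ h) (-1) < A h := lt_of_le_of_lt (dn_le_cons b _ _) h3
    rcases ih h1 h7 h8 h6 with h9 | h9
    · by_cases h10 : B (b :: (k ++ h)) < A (b :: (k ++ h))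
      · exact Or.inl h10
      · right
        have h11 := A_le_append k h
        have h12 : dn (b :: (k ++ h)) (-1) < A h := h3
        exact tie_start (h := k ++ h) h9 (not_lt.1 h10) (lt_of_lt_of_le h7 h11)
          (lt_of_lt_of_le h12 h11)
    · exact Or.inr ((tie_step h9 b).resolve_left h5)

lemma change' {h k : List Bool} (h1 : B h < A h) (h2 : up (k ++ h) 0 < A h)
    (h3 : dn (k ++ h) (-1) < A h) (h4 : A (k ++ h) < B (k ++ h)) : HitBy G4 h k := by
  by_contra h5
  rcases change h k h1 h2 h3 h5 with h6 | ⟨x, y, h6⟩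
  · omega
  · omega

/-! ### Reflection -/

lemma flip_append (k h : List Bool) : flip (k ++ h) = flip k ++ flip h := by
  unfold flip
  rw [List.map_append]

lemma xiD_flip (h : List Bool) (y : ℤ) : xiD (flip h) y = xiD h (-y) := by
  unfold xiD
  rw [up_flip, dn_flip, max_comm, show -(y - 1) - 1 = -y by ring]

lemma Mx_flip (h : List Bool) : Mx (flip h) = Mx h := by
  unfold Mx
  rw [A_flip, B_flip, max_comm]

lemma G4_flip (h : List Bool) : G4 (flip h) ↔ G4 h := by
  have e : Kd h = (fun y : ℤ => -y) '' Kd (flip h) := by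
    ext y
    constructor
    · intro hy
      refine ⟨-y, ?_, by simp⟩
      show xiD (flip h) (-y) = Mx (flip h)
      rw [xiD_flip, neg_neg, Mx_flip]
      exact hy
    · rintro ⟨z, hz, rfl⟩
      have hz' : xiD (flip h) z = Mx (flip h) := hz
      rw [xiD_flip, Mx_flip] at hz'
      exact hz'
  unfold G4
  rw [e, Set.ncard_image_of_injective _ neg_injective]

lemma HitBy_flip (h k : List Bool) : HitBy G4 (flip h) (flip k) ↔ HitBy G4 h k := by
  induction k with
  | nil => exact G4_flip h
  | cons b k ih =>
    have e : (!b) :: (flip k ++ flip h) = flip (b :: (k ++ h)) := by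
      rw [flip_cons, flip_append]
    show (G4 ((!b) :: (flip k ++ flip h)) ∨ HitBy G4 (flip h) (flip k)) ↔ _
    rw [e, G4_flip, ih]
    exact Iff.rfl

lemma change'' {h k : List Bool} (h1 : A h < B h) (h2 : up (k ++ h) 0 < B h)
    (h3 : dn (k ++ h) (-1) < B h) (h4 : B (k ++ h) < A (k ++ h)) : HitBy G4 h k := by
  rw [← HitBy_flip]
  refine change' ?_ ?_ ?_ ?_
  · rw [A_flip, B_flip]; exact h1
  · rw [← flip_append, up_flip, A_flip]
    norm_num
    exact h3
  · rw [← flip_append, dn_flip, A_flip]
    norm_num
    exact h2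
  · rw [← flip_append, A_flip, B_flip]; exact h4

lemma r_G4_flip (N : ℕ) : ∀ h, r G4 N (flip h) = r G4 N h := by
  induction N with
  | zero =>
    intro h
    by_cases hG : G4 h
    · rw [r_of_mem G4 hG, r_of_mem G4 ((G4_flip h).2 hG)]
    · rw [r_zero G4 hG, r_zero G4 (fun h1 => hG ((G4_flip h).1 h1))]
  | succ N ih =>
    intro h
    by_cases hG : G4 h
    · rw [r_of_mem G4 hG, r_of_mem G4 ((G4_flip h).2 hG)]
    · rw [r_succ G4 hG, r_succ G4 (fun h1 => hG ((G4_flip h).1 h1)), ← ih (false :: h),
        ← ih (true :: h), flip_cons, flip_cons]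
      simp only [Bool.not_false, Bool.not_true]
      ring

lemma W_G4_flip (h : List Bool) : W G4 (flip h) = W G4 h := by
  unfold W
  congr 1
  funext N
  exact r_G4_flip N h

end R766.FV
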