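import Pool.Agent.R766.FV.Osc

/-!
A superharmonic function that dominates the indicator that some edge of the positive half-line is
crossed upwards at least `Λ` times: the conditional probability, given the steps made so far, that
the profile of the first `L` positive excursions exceeds `Λ`. The profile is a critical branching
process, explored site by site.
-/

set_option autoImplicit false

open Finset

namespace R766.FV

/-- Adding a geometric number, in terms of the deficit `d` with respect to `Λ`. -/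
noncomputable def gs (f : ℕ → ℝ) : ℕ → ℝ
  | 0 => 1
  | d + 1 => (f (d + 1) + gs f d) / 2

/-- The probability that the profile exceeds `Λ` in the next `j` sites after `x`, given that it has
deficit `d` at `x`; `a` and `b` are the numbers of ups and downs already used at the sites. -/
noncomputable def Phi (Λ : ℕ) (a b : ℕ → ℕ) : ℕ → ℕ → ℕ → ℝ
  | 0, _, d => if d = 0 then 1 else 0
  | j + 1, x, d => if d = 0 then 1 else (gs^[Λ - d - b (x + 1)] (Phi Λ a b j (x + 1)))
      (Λ - a (x + 1))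

lemma gs_zero (f : ℕ → ℝ) : gs f 0 = 1 := rfl

lemma gs_succ (f : ℕ → ℝ) (d : ℕ) : gs f (d + 1) = (f (d + 1) + gs f d) / 2 := rfl

lemma gs_one : gs (fun _ => 1) = fun _ => 1 := by
  funext d
  induction d with
  | zero => rfl
  | succ d ih => rw [gs_succ, ih]; norm_num

lemma gs_iter_one (n : ℕ) : gs^[n] (fun _ => 1) = fun _ => 1 := by
  induction n with
  | zero => rfl
  | succ n ih => rw [Function.iterate_succ_apply', ih, gs_one]

lemma gs_iter_zero (f : ℕ → ℝ) (hf : f 0 = 1) (n : ℕ) : gs^[n] f 0 = 1 := by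
  cases n with
  | zero => exact hf
  | succ n => rw [Function.iterate_succ_apply']; rfl

lemma gs_nonneg (f : ℕ → ℝ) (hf : ∀ d, 0 ≤ f d) : ∀ d, 0 ≤ gs f d := by
  intro d
  induction d with
  | zero => rw [gs_zero]; norm_num
  | succ d ih => rw [gs_succ]; linarith [hf (d + 1)]

lemma gs_iter_nonneg (f : ℕ → ℝ) (hf : ∀ d, 0 ≤ f d) (n : ℕ) : ∀ d, 0 ≤ gs^[n] f d := by
  induction n with
  | zero => exact hf
  | succ n ih => rw [Function.iterate_succ_apply']; exact gs_nonneg _ ih

/-- Linearity on an initial segment of deficits. -/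
lemma gs_avg (D : ℕ) (f f1 f2 : ℕ → ℝ) (h : ∀ d ≤ D, f d = (f1 d + f2 d) / 2) :
    ∀ d ≤ D, gs f d = (gs f1 d + gs f2 d) / 2 := by
  intro d
  induction d with
  | zero => intro _; simp [gs_zero]
  | succ d ih =>
    intro hd
    rw [gs_succ, gs_succ, gs_succ, ih (by omega), h (d + 1) hd]
    ring

lemma gs_iter_avg (n D : ℕ) (f f1 f2 : ℕ → ℝ) (h : ∀ d ≤ D, f d = (f1 d + f2 d) / 2) :
    ∀ d ≤ D, gs^[n] f d = (gs^[n] f1 d + gs^[n] f2 d) / 2 := by
  induction n with
  | zero => exact h
  | succ n ih =>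
    simp only [Function.iterate_succ_apply']
    exact gs_avg D _ _ _ ih

lemma gs_le (Λ : ℕ) (f : ℕ → ℝ) (s : ℝ) (hs : 0 ≤ s)
    (h : ∀ d ≤ Λ, f d ≤ ((Λ : ℝ) - d + s) / Λ) (hΛ : 0 < Λ) :
    ∀ d ≤ Λ, gs f d ≤ ((Λ : ℝ) - d + (s + 1)) / Λ := by
  have hΛ' : (0 : ℝ) < Λ := by exact_mod_cast hΛ
  intro d
  induction d with
  | zero =>
    intro _
    rw [gs_zero, le_div_iff₀ hΛ']
    push_cast
    linarith
  | succ d ih =>
    intro hd
    have h1 := ih (by omega)
    have h2 := h (d + 1) hd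
    rw [le_div_iff₀ hΛ'] at h1 h2 ⊢
    rw [gs_succ]
    push_cast at h2 ⊢
    linarith

lemma gs_iter_le (Λ : ℕ) (f : ℕ → ℝ) (h : ∀ d ≤ Λ, f d ≤ ((Λ : ℝ) - d) / Λ) (hΛ : 0 < Λ)
    (n : ℕ) : ∀ d ≤ Λ, gs^[n] f d ≤ ((Λ : ℝ) - d + n) / Λ := by
  induction n with
  | zero => intro d hd; simpa using h d hd
  | succ n ih =>
    intro d hd
    rw [Function.iterate_succ_apply']
    have := gs_le Λ _ n (by positivity) ih hΛ d hd
    push_cast
    exact this

lemma Phi_zero_deficit (Λ : ℕ) (a b : ℕ → ℕ) (j x : ℕ) : Phi Λ a b j x 0 = 1 := by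
  cases j <;> simp [Phi]

lemma Phi_nonneg (Λ : ℕ) (a b : ℕ → ℕ) (j : ℕ) : ∀ x d, 0 ≤ Phi Λ a b j x d := by
  induction j with
  | zero => intro x d; unfold Phi; split_ifs <;> norm_num
  | succ j ih =>
    intro x d
    unfold Phi
    split_ifs
    · norm_num
    · exact gs_iter_nonneg _ (ih (x + 1)) _ _

lemma Phi_init (Λ : ℕ) (hΛ : 0 < Λ) (j : ℕ) : ∀ x, ∀ d ≤ Λ,
    Phi Λ (fun _ => 0) (fun _ => 0) j x d ≤ ((Λ : ℝ) - d) / Λ := by
  have hΛ' : (0 : ℝ) < Λ := by exact_mod_cast hΛ
  induction j with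
  | zero =>
    intro x d hd
    unfold Phi
    have : (d : ℝ) ≤ Λ := by exact_mod_cast hd
    split_ifs with h0
    · rw [h0]
      simp [hΛ'.ne']
    · exact div_nonneg (by linarith) hΛ'.le
  | succ j ih =>
    intro x d hd
    unfold Phi
    split_ifs with h0
    · rw [h0]
      simp [hΛ'.ne']
    · have := gs_iter_le Λ _ (ih (x + 1)) hΛ (Λ - d - 0) (Λ - 0) (by omega)
      refine this.trans (le_of_eq ?_)
      simp only [Nat.sub_zero]
      rw [Nat.cast_sub hd]
      ring

lemma Phi_hit (Λ : ℕ) (a b : ℕ → ℕ) (j : ℕ) : ∀ x, (∃ i, x < i ∧ i ≤ x + j ∧ Λ ≤ a i) →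
    ∀ d, Phi Λ a b j x d = 1 := by
  induction j with
  | zero =>
    rintro x ⟨i, h1, h2, _⟩
    omega
  | succ j ih =>
    rintro x ⟨i, h1, h2, h3⟩ d
    unfold Phi
    split_ifs with h0
    · rfl
    · by_cases hi : i = x + 1
      · subst hi
        rw [Nat.sub_eq_zero_of_le h3]
        exact gs_iter_zero _ (Phi_zero_deficit _ _ _ _ _) _
      · have : Phi Λ a b j (x + 1) = fun _ => 1 := by
          funext d'
          exact ih (x + 1) ⟨i, by omega, by omega, h3⟩ d'
        rw [this, gs_iter_one]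

lemma Phi_congr (Λ : ℕ) (a b a' b' : ℕ → ℕ) (j : ℕ) : ∀ x, (∀ i, x < i → a i = a' i) →
    (∀ i, x < i → b i = b' i) → Phi Λ a b j x = Phi Λ a' b' j x := by
  induction j with
  | zero => intro x _ _; rfl
  | succ j ih =>
    intro x ha hb
    funext d
    unfold Phi
    rw [ih (x + 1) (fun i hi => ha i (by omega)) (fun i hi => hb i (by omega)), ha (x + 1) (by omega),
      hb (x + 1) (by omega)]

lemma Phi_congr_beyond (Λ : ℕ) (a b a' b' : ℕ → ℕ) (j : ℕ) : ∀ x, (∀ i ≤ x + j, a i = a' i) →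
    (∀ i ≤ x + j, b i = b' i) → Phi Λ a b j x = Phi Λ a' b' j x := by
  induction j with
  | zero => intro x _ _; rfl
  | succ j ih =>
    intro x ha hb
    funext d
    unfold Phi
    rw [ih (x + 1) (fun i hi => ha i (by omega)) (fun i hi => hb i (by omega)), ha (x + 1) (by omega),
      hb (x + 1) (by omega)]

/-- The martingale property when the next coin at the site `s` is revealed. -/
lemma Phi_avg (Λ : ℕ) (a b : ℕ → ℕ) (s : ℕ) (hs : a s < Λ) (j : ℕ) : ∀ x, x < s →
    s ≤ x + j → ∀ D, (x + 1 = s → ∀ d ≤ D, d ≠ 0 → b s + 1 ≤ Λ - d) →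
    (x + 1 < s → b s + 1 ≤ a (s - 1)) →
    ∀ d ≤ D, Phi Λ a b j x d = (Phi Λ a (Function.update b s (b s + 1)) j x d +
      Phi Λ (Function.update a s (a s + 1)) b j x d) / 2 := by
  induction j with
  | zero => intro x h1 h2; omega
  | succ j ih =>
    intro x h1 h2 D h3 h4 d hd
    unfold Phi
    by_cases h0 : d = 0
    · simp [h0]
    rw [if_neg h0, if_neg h0, if_neg h0]
    by_cases hx : x + 1 = s
    · rw [hx]
      have e1 : Phi Λ a (Function.update b s (b s + 1)) j s = Phi Λ a b j s :=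
        Phi_congr _ _ _ _ _ _ _ (fun i _ => rfl) fun i hi => by
          rw [Function.update_of_ne (by omega)]
      have e2 : Phi Λ (Function.update a s (a s + 1)) b j s = Phi Λ a b j s :=
        Phi_congr _ _ _ _ _ _ _ (fun i hi => by rw [Function.update_of_ne (by omega)])
          fun i _ => rfl
      rw [e1, e2, Function.update_self, Function.update_self]
      have h5 := h3 hx d hd h0
      obtain ⟨n, hn⟩ : ∃ n, Λ - d - b s = n + 1 := ⟨Λ - d - b s - 1, by omega⟩
      obtain ⟨D', hD'⟩ : ∃ D', Λ - a s = D' + 1 := ⟨Λ - a s - 1, by omega⟩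
      rw [hn, hD', show Λ - d - (b s + 1) = n by omega, show Λ - (a s + 1) = D' by omega,
        Function.iterate_succ_apply', gs_succ]
    · have e1 : Function.update b s (b s + 1) (x + 1) = b (x + 1) :=
        Function.update_of_ne hx _ _
      have e2 : Function.update a s (a s + 1) (x + 1) = a (x + 1) :=
        Function.update_of_ne hx _ _
      rw [e1, e2]
      have h5 := h4 (by omega)
      refine gs_iter_avg _ (Λ - a (x + 1)) _ _ _ ?_ _ le_rfl
      refine ih (x + 1) (by omega) (by omega) (Λ - a (x + 1)) ?_ ?_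
      · intro h6 d' hd' hd0
        have h7 : s - 1 = x + 1 := by omega
        rw [h7] at h5
        omega
      · intro _
        exact h5

/-! ### The superharmonic function on histories -/

/-- The numbers of ups and downs used at the positive sites. -/
def ua (k : List Bool) (x : ℕ) : ℕ := up k x

/-- The number of downs used at the site `x`. -/
def ub (k : List Bool) (x : ℕ) : ℕ := dn k ((x : ℤ) - 1)

/-- The conditional probability. -/
noncomputable def Psi (Λ L X : ℕ) (k : List Bool) : ℝ := Phi Λ (ua k) (ub k) X 0 (Λ - L)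

lemma Psi_nonneg (Λ L X : ℕ) (k : List Bool) : 0 ≤ Psi Λ L X k := Phi_nonneg _ _ _ _ _ _

lemma Psi_nil (Λ L X : ℕ) (hΛ : 0 < Λ) (hL : L ≤ Λ) : Psi Λ L X [] ≤ (L : ℝ) / Λ := by
  have h1 := Phi_init Λ hΛ X 0 (Λ - L) (by omega)
  have e : Psi Λ L X [] = Phi Λ (fun _ => 0) (fun _ => 0) X 0 (Λ - L) := rfl
  rw [e]
  refine h1.trans (le_of_eq ?_)
  rw [Nat.cast_sub hL]
  ring

lemma Psi_hit (Λ L X : ℕ) (k : List Bool) (x : ℕ) (h1 : 1 ≤ x) (h2 : x ≤ X) (h3 : Λ ≤ up k x) :
    Psi Λ L X k = 1 :=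
  Phi_hit _ _ _ _ _ ⟨x, by omega, by omega, h3⟩ _

lemma Psi_out (Λ L X : ℕ) (k : List Bool) (b : Bool) (hS : S k ≤ 0) :
    Psi Λ L X (b :: k) = Psi Λ L X k := by
  unfold Psi
  have h1 : Phi Λ (ua (b :: k)) (ub (b :: k)) X 0 = Phi Λ (ua k) (ub k) X 0 := by
    apply Phi_congr
    · intro i hi
      show up (b :: k) i = up k i
      rw [up_cons, if_neg, add_zero]
      rintro ⟨_, h⟩
      omega
    · intro i hi
      show dn (b :: k) ((i : ℤ) - 1) = dn k ((i : ℤ) - 1)
      rw [dn_cons, if_neg, add_zero]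
      rintro ⟨_, h⟩
      omega
  rw [h1]

lemma Psi_avg (Λ L X : ℕ) (k : List Bool) (hL : up k 0 ≤ L) (hA : A k < Λ) (hL2 : L ≤ Λ) :
    Psi Λ L X k = (Psi Λ L X (false :: k) + Psi Λ L X (true :: k)) / 2 := by
  rcases le_or_gt (S k) 0 with hS | hS
  · rw [Psi_out _ _ _ _ _ hS, Psi_out _ _ _ _ _ hS]; ring
  obtain ⟨s, hs⟩ : ∃ s : ℕ, S k = s := ⟨(S k).toNat, by omega⟩
  have hs1 : 1 ≤ s := by omega
  have ea : ua (true :: k) = Function.update (ua k) s (ua k s + 1) := by
    funext i
    by_cases hi : i = s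
    · subst hi
      rw [Function.update_self]
      show up (true :: k) i = up k i + 1
      rw [up_cons, if_pos ⟨rfl, hs⟩]
    · rw [Function.update_of_ne hi]
      show up (true :: k) i = up k i
      rw [up_cons, if_neg, add_zero]
      rintro ⟨_, h⟩
      omega
  have eb : ub (true :: k) = ub k := by
    funext i
    show dn (true :: k) _ = dn k _
    rw [dn_cons, if_neg, add_zero]
    rintro ⟨h, _⟩
    exact Bool.noConfusion h
  have ea' : ua (false :: k) = ua k := by
    funext i
    show up (false :: k) _ = up k _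
    rw [up_cons, if_neg, add_zero]
    rintro ⟨h, _⟩
    exact Bool.noConfusion h
  have eb' : ub (false :: k) = Function.update (ub k) s (ub k s + 1) := by
    funext i
    by_cases hi : i = s
    · subst hi
      rw [Function.update_self]
      show dn (false :: k) ((i : ℤ) - 1) = dn k ((i : ℤ) - 1) + 1
      rw [dn_cons, if_pos ⟨rfl, by omega⟩]
    · rw [Function.update_of_ne hi]
      show dn (false :: k) ((i : ℤ) - 1) = dn k ((i : ℤ) - 1)
      rw [dn_cons, if_neg, add_zero]
      rintro ⟨_, h⟩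
      omega
  unfold Psi
  rw [ea, eb, ea', eb']
  rcases le_or_gt s X with hsX | hsX
  · have hcons : (up k ((s : ℤ) - 1) : ℤ) - dn k ((s : ℤ) - 1) = 1 := by
      rw [up_sub_dn, if_pos (by omega)]
    have hub : ub k s + 1 = up k ((s : ℤ) - 1) := by
      unfold ub; omega
    have hsA : ua k s < Λ := by
      have := le_A k s (by omega)
      show up k s < Λ
      omega
    refine Phi_avg Λ (ua k) (ub k) s hsA X 0 (by omega) (by omega) (Λ - L) ?_ ?_ _ le_rfl
    · intro h1 d hd hd0
      rw [hub]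
      have : ((s : ℤ) - 1) = 0 := by omega
      rw [this]
      omega
    · intro h1
      rw [hub]
      unfold ua
      have : (((s - 1 : ℕ) : ℤ)) = (s : ℤ) - 1 := by omega
      rw [this]
  · have e1 : Phi Λ (ua k) (Function.update (ub k) s (ub k s + 1)) X 0 =
        Phi Λ (ua k) (ub k) X 0 :=
      Phi_congr_beyond _ _ _ _ _ _ _ (fun i _ => rfl) fun i hi => by
        rw [Function.update_of_ne (by omega)]
    have e2 : Phi Λ (Function.update (ua k) s (ua k s + 1)) (ub k) X 0 =
        Phi Λ (ua k) (ub k) X 0 :=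
      Phi_congr_beyond _ _ _ _ _ _ _ (fun i hi => by rw [Function.update_of_ne (by omega)])
        fun i _ => rfl
    rw [e1, e2]
    ring

end R766.FV
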