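import Pool.Agent.R766.FV.Doob

/-!
With a probability bounded below, a fresh walk crosses some edge of the positive half-line `N` times
while all crossing numbers of the negative half-line and of the two edges at the origin are less
than `64 K`, when `N` is at most a constant times `K`.
-/

set_option autoImplicit false

open Filter Topology

namespace R766.FV

lemma maxp2 (F : List Bool → ℝ) (G I : List Bool → Prop) {θ M : ℝ} (_hM : 0 ≤ M)
    (hF : ∀ h, I h → F h ≤ θ + M)
    (hsub : ∀ h, I h → ¬ G h → F h ≤ (F (false :: h) + F (true :: h)) / 2)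
    (hG : ∀ h, I h → G h → F h ≤ θ) (hI : ∀ h b, I h → ¬ G h → I (b :: h)) (h : List Bool)
    (hI0 : I h) (hr : Tendsto (fun N => r G N h) atTop (𝓝 0)) : F h ≤ θ := by
  have key : ∀ N, ∀ h, I h → F h ≤ θ + M * r G N h := by
    intro N
    induction N with
    | zero =>
      intro h hI0
      by_cases hGh : G h
      · have := hG h hI0 hGh
        rw [r_of_mem G hGh]
        linarith
      · rw [r_zero G hGh]
        have := hF h hI0
        linarith
    | succ N ih =>
      intro h hI0
      by_cases hGh : G h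
      · have := hG h hI0 hGh
        rw [r_of_mem G hGh]
        linarith
      · rw [r_succ G hGh]
        have h1 := ih _ (hI h false hI0 hGh)
        have h2 := ih _ (hI h true hI0 hGh)
        have h3 := hsub h hI0 hGh
        linarith
  have h1 : Tendsto (fun N => θ + M * r G N h) atTop (𝓝 (θ + M * 0)) :=
    tendsto_const_nhds.add (hr.const_mul M)
  rw [mul_zero, add_zero] at h1
  exact ge_of_tendsto' h1 fun N => key N h hI0

/-! ### The number of excursions -/

/-- The conditional probability that more than `L` positive excursions start before `K` is hit. -/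
noncomputable def Pe (K L : ℕ) (k : List Bool) : ℝ :=
  if L < up k 0 then 1 else (((K : ℝ) - 1) / K) ^ (L - up k 0) *
    (((K : ℝ) - ((max (S k) 0 : ℤ) : ℝ)) / K)

lemma Pe_nonneg (K L : ℕ) (hK : 1 ≤ K) (k : List Bool) (hS : S k ≤ K) : 0 ≤ Pe K L k := by
  have hK' : (1 : ℝ) ≤ K := by exact_mod_cast hK
  unfold Pe
  split_ifs
  · norm_num
  · have h1 : ((max (S k) 0 : ℤ) : ℝ) ≤ K := by exact_mod_cast (by omega : max (S k) 0 ≤ (K : ℤ))
    have h2 : 0 ≤ ((K : ℝ) - 1) / K := div_nonneg (by linarith) (by linarith)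
    have h3 : 0 ≤ ((K : ℝ) - ((max (S k) 0 : ℤ) : ℝ)) / K := div_nonneg (by linarith) (by linarith)
    positivity

lemma Pe_of_lt (K L : ℕ) (k : List Bool) (h : L < up k 0) : Pe K L k = 1 := by
  unfold Pe; rw [if_pos h]

lemma Pe_avg (K L : ℕ) (hK : 1 ≤ K) (k : List Bool) (hL : up k 0 ≤ L) :
    Pe K L k = (Pe K L (false :: k) + Pe K L (true :: k)) / 2 := by
  have hK' : (0 : ℝ) < K := by exact_mod_cast hK
  have sf : S (false :: k) = S k - 1 := by simp [S_cons]; ring
  have stt : S (true :: k) = S k + 1 := by simp [S_cons]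
  have uf : up (false :: k) 0 = up k 0 := by rw [up_cons]; simp
  rcases lt_trichotomy (S k) 0 with hS | hS | hS
  · have ut : up (true :: k) 0 = up k 0 := by
      rw [up_cons, if_neg, add_zero]
      rintro ⟨_, h⟩
      omega
    unfold Pe
    rw [sf, stt, uf, ut, if_neg (by omega), if_neg (by omega), if_neg (by omega),
      max_eq_right (by omega), max_eq_right (by omega), max_eq_right (by omega)]
    ring
  · have ut : up (true :: k) 0 = up k 0 + 1 := by
      rw [up_cons, if_pos ⟨rfl, hS⟩]
    unfold Pe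
    rw [sf, stt, uf, ut, hS, if_neg (by omega), if_neg (by omega)]
    simp only [zero_sub, zero_add]
    rw [max_eq_right (by norm_num), max_eq_right (by norm_num), max_eq_left (by norm_num)]
    by_cases h1 : up k 0 = L
    · rw [if_pos (by omega), h1, Nat.sub_self]
      simp [hK'.ne']
    · rw [if_neg (by omega)]
      obtain ⟨m, hm⟩ : ∃ m, L - up k 0 = m + 1 := ⟨L - up k 0 - 1, by omega⟩
      rw [hm, show L - (up k 0 + 1) = m by omega, pow_succ]
      push_cast
      field_simp
      ring
  · have ut : up (true :: k) 0 = up k 0 := by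
      rw [up_cons, if_neg, add_zero]
      rintro ⟨_, h⟩
      omega
    unfold Pe
    rw [sf, stt, uf, ut, if_neg (by omega), if_neg (by omega), if_neg (by omega),
      max_eq_left (by omega), max_eq_left (by omega), max_eq_left (by omega)]
    push_cast
    ring

/-! ### First phase -/

/-- The subharmonic function of the first phase. -/
noncomputable def phA (K : ℕ) (k : List Bool) : ℝ :=
  (1 + (S k : ℝ) / K) / 2 - Psi (64 * K) (4 * K) K k - Psi (64 * K) (4 * K) K (flip k) -
    Pe K (4 * K) k - Pe K (4 * K) (flip k)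

lemma q_pow_le (K : ℕ) (hK : 1 ≤ K) : (((K : ℝ) - 1) / K) ^ (4 * K) ≤ 1 / 16 := by
  have hK' : (1 : ℝ) ≤ K := by exact_mod_cast hK
  have h1 : (((K : ℝ) - 1) / K) ^ K ≤ Real.exp (-1) := by
    have := Real.one_sub_div_pow_le_exp_neg (n := K) (t := 1) hK'
    have e : ((K : ℝ) - 1) / K = 1 - 1 / K := by field_simp
    rw [e]
    exact this
  have h2 : Real.exp (-1) ≤ 1 / 2 := by
    have := Real.exp_neg_one_lt_d9
    linarith
  have h0 : 0 ≤ (((K : ℝ) - 1) / K) ^ K := by
    have : 0 ≤ ((K : ℝ) - 1) / K := div_nonneg (by linarith) (by linarith)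
    positivity
  rw [mul_comm, pow_mul]
  calc ((((K : ℝ) - 1) / K) ^ K) ^ 4 ≤ (1 / 2) ^ 4 :=
        pow_le_pow_left₀ h0 (h1.trans h2) 4
    _ = 1 / 16 := by norm_num

lemma phA_nil (K : ℕ) (hK : 1 ≤ K) : 1 / 4 ≤ phA K [] := by
  have hK' : (0 : ℝ) < K := by exact_mod_cast hK
  have h1 := Psi_nil (64 * K) (4 * K) K (by omega) (by omega)
  have h2 : ((4 * K : ℕ) : ℝ) / ((64 * K : ℕ) : ℝ) = 1 / 16 := by
    push_cast
    field_simp
    norm_num
  rw [h2] at h1
  have h3 : Pe K (4 * K) [] ≤ 1 / 16 := by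
    have e : Pe K (4 * K) [] = (((K : ℝ) - 1) / K) ^ (4 * K) := by
      unfold Pe
      simp [up, S, hK'.ne']
    rw [e]
    exact q_pow_le K hK
  have e : flip [] = [] := rfl
  unfold phA
  rw [e]
  simp only [S, Int.cast_zero, zero_div]
  linarith

lemma bad_aux (K : ℕ) (hK : 1 ≤ K) (k : List Bool) (hS : S k ≤ K)
    (hup : ∀ x : ℤ, (K : ℤ) ≤ x → up k x = 0) (h : 64 * K ≤ A k ∨ 4 * K < up k 0) :
    1 ≤ Psi (64 * K) (4 * K) K k + Pe K (4 * K) k := by
  by_cases h1 : 4 * K < up k 0
  · rw [Pe_of_lt _ _ _ h1]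
    have := Psi_nonneg (64 * K) (4 * K) K k
    linarith
  · have h2 := h.resolve_right h1
    obtain ⟨x, hx, hxA⟩ := exists_A k
    have hx0 : x ≠ 0 := by
      rintro rfl
      omega
    have hxK : x < K := by
      by_contra hc
      have := hup x (by omega)
      omega
    have h3 := Psi_hit (64 * K) (4 * K) K k x.toNat (by omega) (by omega)
      (by rw [Int.toNat_of_nonneg hx]; omega)
    rw [h3]
    have := Pe_nonneg K (4 * K) hK k hS
    linarith

lemma phaseA (K : ℕ) (hK : 1 ≤ K) (F : List Bool → ℝ) {V d : ℝ} (hd : 0 ≤ d)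
    (hFV : ∀ k, F k ≤ V) (hsub : ∀ k, F k ≤ (F (false :: k) + F (true :: k)) / 2)
    (hT : ∀ k, S k = K → A k < 64 * K → B k < 64 * K → F k ≤ V - d) :
    F [] ≤ V - 1 / 4 * d := by
  have hK' : (0 : ℝ) < K := by exact_mod_cast hK
  let G : List Bool → Prop := fun k => (S k = K ∨ S k = -K) ∨ (64 * K ≤ A k ∨ 4 * K < up k 0) ∨
    (64 * K ≤ B k ∨ 4 * K < dn k (-1))
  let I : List Bool → Prop := fun k => (-(K : ℤ) ≤ S k ∧ S k ≤ K) ∧
    (∀ x : ℤ, (K : ℤ) ≤ x → up k x = 0) ∧ (∀ x : ℤ, x < -(K : ℤ) → dn k x = 0)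
  have flipI : ∀ k, I k → S (flip k) ≤ K ∧ ∀ x : ℤ, (K : ℤ) ≤ x → up (flip k) x = 0 := by
    intro k hk
    refine ⟨by rw [S_flip]; omega, fun x hx => ?_⟩
    rw [up_flip]
    exact hk.2.2 _ (by omega)
  have posn : ∀ k, I k → phA K k ≤ (1 + (S k : ℝ) / K) / 2 := by
    intro k hk
    unfold phA
    have := Psi_nonneg (64 * K) (4 * K) K k
    have := Psi_nonneg (64 * K) (4 * K) K (flip k)
    have := Pe_nonneg K (4 * K) hK k hk.1.2
    have := Pe_nonneg K (4 * K) hK (flip k) (flipI k hk).1
    linarith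
  have ratio : ∀ k, I k → (S k : ℝ) / K ≤ 1 := by
    intro k hk
    rw [div_le_one hK']
    exact_mod_cast hk.1.2
  have hph1 : ∀ k, I k → phA K k ≤ 1 := by
    intro k hk
    have := posn k hk
    have := ratio k hk
    linarith
  have main : (fun k => F k + d * phA K k) [] ≤ V := by
    refine maxp2 (fun k => F k + d * phA K k) G I hd ?_ ?_ ?_ ?_ [] ?_ ?_
    · intro k hk
      have h1 := hFV k
      have h2 := mul_le_mul_of_nonneg_left (hph1 k hk) hd
      linarith
    · intro k hk hG
      have hG' : ¬ (S k = K ∨ S k = -K) ∧ ¬ (64 * K ≤ A k ∨ 4 * K < up k 0) ∧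
          ¬ (64 * K ≤ B k ∨ 4 * K < dn k (-1)) :=
        ⟨fun h => hG (Or.inl h), fun h => hG (Or.inr (Or.inl h)), fun h => hG (Or.inr (Or.inr h))⟩
      obtain ⟨g1, g2, g3⟩ := hG'
      push Not at g1 g2 g3
      have a1 := Psi_avg (64 * K) (4 * K) K k (by omega) (by omega) (by omega)
      have a2 := Psi_avg (64 * K) (4 * K) K (flip k)
        (by rw [up_flip]; norm_num; omega) (by rw [A_flip]; omega) (by omega)
      have a3 := Pe_avg K (4 * K) hK k (by omega)
      have a4 := Pe_avg K (4 * K) hK (flip k) (by rw [up_flip]; norm_num; omega)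
      have e : phA K k = (phA K (false :: k) + phA K (true :: k)) / 2 := by
        unfold phA
        rw [flip_cons, flip_cons, a1, a2, a3, a4]
        simp only [Bool.not_false, Bool.not_true, S_cons, Bool.false_eq_true, if_false, if_true]
        push_cast
        ring
      have := hsub k
      rw [e]
      linarith
    · intro k hk hG
      have key : phA K k ≤ 0 ∨ (S k = K ∧ A k < 64 * K ∧ B k < 64 * K) := by
        by_cases h1 : 64 * K ≤ A k ∨ 4 * K < up k 0
        · left
          have h2 := bad_aux K hK k hk.1.2 hk.2.1 h1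
          unfold phA
          have := Psi_nonneg (64 * K) (4 * K) K (flip k)
          have := Pe_nonneg K (4 * K) hK (flip k) (flipI k hk).1
          have := ratio k hk
          linarith
        by_cases h1' : 64 * K ≤ B k ∨ 4 * K < dn k (-1)
        · left
          have h2 := bad_aux K hK (flip k) (flipI k hk).1 (flipI k hk).2
            (by rw [A_flip, up_flip]; norm_num; exact h1')
          unfold phA
          have := Psi_nonneg (64 * K) (4 * K) K k
          have := Pe_nonneg K (4 * K) hK k hk.1.2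
          have := ratio k hk
          linarith
        · push Not at h1 h1'
          rcases hG with h3 | h3 | h3
          · rcases h3 with h4 | h4
            · exact Or.inr ⟨h4, by omega, by omega⟩
            · left
              have h5 := posn k hk
              rw [h4] at h5
              have h6 : (((-(K : ℤ) : ℤ)) : ℝ) / K = -1 := by
                push_cast
                field_simp
              rw [h6] at h5
              linarith
          · omega
          · omega
      rcases key with h1 | ⟨h1, h2, h3⟩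
      · have := hFV k
        have := mul_nonpos_of_nonneg_of_nonpos hd h1
        linarith
      · have h4 := hT k h1 h2 h3
        have h5 := mul_le_mul_of_nonneg_left (hph1 k hk) hd
        linarith
    · intro k b hk hG
      have hG' : ¬ (S k = K ∨ S k = -K) := fun h => hG (Or.inl h)
      push Not at hG'
      obtain ⟨⟨i1, i2⟩, i3, i4⟩ := hk
      refine ⟨?_, ?_, ?_⟩
      · rw [S_cons]
        split_ifs <;> omega
      · intro x hx
        rw [up_cons, i3 x hx, if_neg]
        rintro ⟨_, h⟩
        omega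
      · intro x hx
        rw [dn_cons, i4 x hx, if_neg]
        rintro ⟨_, h⟩
        omega
    · exact ⟨⟨by simp [S], by simp [S]⟩, fun _ _ => rfl, fun _ _ => rfl⟩
    · exact squeeze_r (G' := fun k => S k = K) (fun k h1 => Or.inl (Or.inl h1)) [] (hit K [])
  simp only at main
  have h1 := mul_le_mul_of_nonneg_left (phA_nil K hK) hd
  linarith

/-! ### Second phase -/

/-- The subharmonic function of the second phase. -/
noncomputable def phB (K N : ℕ) (k : List Bool) : ℝ :=
  if N ≤ up k ((K : ℤ) - 1) then 1 else (((K : ℝ) - 1) / K) ^ (N - 1 - up k ((K : ℤ) - 1)) *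
    (((min (S k) ((K : ℤ) - 1) : ℤ) : ℝ) / K)

lemma phaseB (K N : ℕ) (hK : 2 ≤ K) (hN : 1 ≤ N) (F : List Bool → ℝ) {V d : ℝ} (hd : 0 ≤ d)
    (hFV : ∀ k, F k ≤ V) (hsub : ∀ k, F k ≤ (F (false :: k) + F (true :: k)) / 2)
    (hT : ∀ k, N ≤ A k → B k < 64 * K → up k 0 < 64 * K → dn k (-1) < 64 * K → F k ≤ V - d)
    (k0 : List Bool) (h0 : S k0 = K) (hA0 : A k0 < 64 * K) (hB0 : B k0 < 64 * K) :
    F k0 ≤ V - (((K : ℝ) - 1) / K) ^ N * d := by
  have hK' : (2 : ℝ) ≤ K := by exact_mod_cast hK
  have hK0 : (0 : ℝ) < K := by linarith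
  set θ : ℝ := ((K : ℝ) - 1) / K with hθ
  have hθ0 : 0 < θ := div_pos (by linarith) hK0
  have hθ1 : θ ≤ 1 := by rw [hθ, div_le_one hK0]; linarith
  let G : List Bool → Prop := fun k => N ≤ up k ((K : ℤ) - 1) ∨ S k = 0
  let I : List Bool → Prop := fun k => 0 ≤ S k ∧ B k < 64 * K ∧ up k 0 < 64 * K ∧
    dn k (-1) < 64 * K
  have hle1 : ∀ k, phB K N k ≤ 1 := by
    intro k
    unfold phB
    split_ifs with h1
    · exact le_rfl
    · have h2 : (((K : ℝ) - 1) / K) ^ (N - 1 - up k ((K : ℤ) - 1)) ≤ 1 :=
        pow_le_one₀ hθ0.le hθ1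
      have h3 : (((min (S k) ((K : ℤ) - 1) : ℤ) : ℝ) / K) ≤ 1 := by
        rw [div_le_one hK0]
        exact_mod_cast (by omega : min (S k) ((K : ℤ) - 1) ≤ (K : ℤ))
      have h4 : 0 < (((K : ℝ) - 1) / K) ^ (N - 1 - up k ((K : ℤ) - 1)) := by
        rw [← hθ]; positivity
      nlinarith
  have main : (fun k => F k + d * phB K N k) k0 ≤ V := by
    refine maxp2 (fun k => F k + d * phB K N k) G I hd ?_ ?_ ?_ ?_ k0 ?_ ?_
    · intro k _
      have h1 := hFV k
      have h2 := mul_le_mul_of_nonneg_left (hle1 k) hd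
      linarith
    · intro k hk hG
      have g1 : ¬ N ≤ up k ((K : ℤ) - 1) := fun h => hG (Or.inl h)
      have g2 : S k ≠ 0 := fun h => hG (Or.inr h)
      have hS1 : 1 ≤ S k := by have := hk.1; omega
      have sf : S (false :: k) = S k - 1 := by simp [S_cons]; ring
      have stt : S (true :: k) = S k + 1 := by simp [S_cons]
      have uf : up (false :: k) ((K : ℤ) - 1) = up k ((K : ℤ) - 1) := by rw [up_cons]; simp
      have e : phB K N k ≤ (phB K N (false :: k) + phB K N (true :: k)) / 2 := by
        rcases lt_trichotomy (S k) ((K : ℤ) - 1) with h1 | h1 | h1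
        · have ut : up (true :: k) ((K : ℤ) - 1) = up k ((K : ℤ) - 1) := by
            rw [up_cons, if_neg, add_zero]
            rintro ⟨_, h⟩
            omega
          unfold phB
          rw [sf, stt, uf, ut, if_neg g1, if_neg g1, if_neg g1, min_eq_left (by omega),
            min_eq_left (by omega), min_eq_left (by omega)]
          push_cast
          apply le_of_eq
          ring
        · have ut : up (true :: k) ((K : ℤ) - 1) = up k ((K : ℤ) - 1) + 1 := by
            rw [up_cons, if_pos ⟨rfl, h1⟩]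
          unfold phB
          rw [sf, stt, uf, ut, if_neg g1, if_neg g1, h1, min_self, min_eq_left (by omega),
            min_eq_right (by omega)]
          by_cases h2 : N ≤ up k ((K : ℤ) - 1) + 1
          · rw [if_pos h2, show N - 1 - up k ((K : ℤ) - 1) = 0 by omega, pow_zero]
            push_cast
            apply le_of_eq
            field_simp
            ring
          · rw [if_neg h2]
            obtain ⟨m, hm⟩ : ∃ m, N - 1 - up k ((K : ℤ) - 1) = m + 1 :=
              ⟨N - 1 - up k ((K : ℤ) - 1) - 1, by omega⟩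
            rw [hm, show N - 1 - (up k ((K : ℤ) - 1) + 1) = m by omega, pow_succ]
            push_cast
            apply le_of_eq
            field_simp
            ring
        · have ut : up (true :: k) ((K : ℤ) - 1) = up k ((K : ℤ) - 1) := by
            rw [up_cons, if_neg, add_zero]
            rintro ⟨_, h⟩
            omega
          unfold phB
          rw [sf, stt, uf, ut, if_neg g1, if_neg g1, if_neg g1, min_eq_right (by omega),
            min_eq_right (by omega), min_eq_right (by omega)]
          apply le_of_eq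
          ring
      have h3 := hsub k
      have h4 := mul_le_mul_of_nonneg_left e hd
      linarith
    · intro k hk hG
      by_cases h1 : N ≤ up k ((K : ℤ) - 1)
      · have h2 : N ≤ A k := h1.trans (le_A k _ (by omega))
        have h3 := hT k h2 hk.2.1 hk.2.2.1 hk.2.2.2
        have h4 := mul_le_mul_of_nonneg_left (hle1 k) hd
        linarith
      · have h2 : S k = 0 := hG.resolve_left h1
        have h3 : phB K N k = 0 := by
          unfold phB
          rw [if_neg h1, h2, min_eq_left (by omega)]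
          simp
        rw [h3]
        have := hFV k
        linarith
    · intro k b hk hG
      have g2 : S k ≠ 0 := fun h => hG (Or.inr h)
      obtain ⟨i1, i2, i3, i4⟩ := hk
      refine ⟨?_, ?_, ?_, ?_⟩
      · rw [S_cons]
        split_ifs <;> omega
      · have : B (b :: k) = B k := by
          show (if b = false ∧ S k ≤ 0 then max (B k) (dn k (S k - 1) + 1) else B k) = B k
          rw [if_neg]
          rintro ⟨_, h⟩
          omega
        rw [this]; exact i2
      · rw [up_cons, if_neg, add_zero]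
        · exact i3
        · rintro ⟨_, h⟩
          exact g2 h
      · rw [dn_cons, if_neg, add_zero]
        · exact i4
        · rintro ⟨_, h⟩
          exact g2 (by omega)
    · refine ⟨by omega, hB0, ?_, ?_⟩
      · exact lt_of_le_of_lt (le_A k0 0 le_rfl) hA0
      · exact lt_of_le_of_lt (le_B k0 (-1) (by norm_num)) hB0
    · exact squeeze_r (G' := fun k => S k = 0) (fun k h1 => Or.inr h1) k0 (hit 0 k0)
  simp only at main
  have h1 : θ ^ N ≤ phB K N k0 := by
    unfold phB
    split_ifs with h2
    · exact pow_le_one₀ hθ0.le hθ1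
    · rw [h0, min_eq_right (by omega)]
      have e : ((((K : ℤ) - 1 : ℤ) : ℝ) / K) = θ := by rw [hθ]; push_cast; rfl
      rw [e, ← hθ, ← pow_succ]
      exact pow_le_pow_of_le_one hθ0.le hθ1 (by omega)
  have h2 := mul_le_mul_of_nonneg_right h1 hd
  linarith

lemma theta_pow (K : ℕ) (hK : 2 ≤ K) : (1 : ℝ) / 16 ≤ (((K : ℝ) - 1) / K) ^ K := by
  have hK' : (2 : ℝ) ≤ K := by exact_mod_cast hK
  have hK0 : (0 : ℝ) < K := by linarith
  set m := (K + 1) / 2 with hm
  have hm1 : K ≤ 2 * m := by omega
  have hm2 : 2 * m ≤ K + 1 := by omega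
  have h0 : 0 ≤ ((K : ℝ) - 1) / K := div_nonneg (by linarith) hK0.le
  have h1 : ((K : ℝ) - 1) / K ≤ 1 := by rw [div_le_one hK0]; linarith
  have hb : (1 : ℝ) / 4 ≤ (((K : ℝ) - 1) / K) ^ m := by
    have h2 := one_add_mul_le_pow (a := -(1 / (K : ℝ))) (by
      have : 1 / (K : ℝ) ≤ 1 := by rw [div_le_one hK0]; linarith
      linarith) m
    have e : (1 : ℝ) + -(1 / (K : ℝ)) = ((K : ℝ) - 1) / K := by field_simp; ring
    rw [e] at h2
    refine le_trans ?_ h2
    have h3 : (m : ℝ) ≤ (K + 1) / 2 := by
      have : ((2 * m : ℕ) : ℝ) ≤ ((K + 1 : ℕ) : ℝ) := by exact_mod_cast hm2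
      push_cast at this
      linarith
    have h4 : (m : ℝ) * (1 / (K : ℝ)) ≤ 3 / 4 := by
      rw [mul_one_div, div_le_iff₀ hK0]
      linarith
    linarith
  calc (1 : ℝ) / 16 = (1 / 4) * (1 / 4) := by norm_num
    _ ≤ (((K : ℝ) - 1) / K) ^ m * (((K : ℝ) - 1) / K) ^ m :=
        mul_le_mul hb hb (by norm_num) (pow_nonneg h0 _)
    _ = (((K : ℝ) - 1) / K) ^ (2 * m) := by rw [two_mul, pow_add]
    _ ≤ (((K : ℝ) - 1) / K) ^ K := pow_le_pow_of_le_one h0 h1 hm1

/-- The two phases together. -/
lemma phases (K N m : ℕ) (hK : 2 ≤ K) (hN : 1 ≤ N) (hm : N ≤ m * K) (F : List Bool → ℝ)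
    {V d : ℝ} (hd : 0 ≤ d) (hFV : ∀ k, F k ≤ V)
    (hsub : ∀ k, F k ≤ (F (false :: k) + F (true :: k)) / 2)
    (hT : ∀ k, N ≤ A k → B k < 64 * K → up k 0 < 64 * K → dn k (-1) < 64 * K → F k ≤ V - d) :
    F [] ≤ V - 1 / 4 * ((1 / 16) ^ m * d) := by
  have hK' : (2 : ℝ) ≤ K := by exact_mod_cast hK
  have hK0 : (0 : ℝ) < K := by linarith
  have h0 : 0 ≤ ((K : ℝ) - 1) / K := div_nonneg (by linarith) hK0.le
  have h1 : ((K : ℝ) - 1) / K ≤ 1 := by rw [div_le_one hK0]; linarith
  have hpow : ((1 : ℝ) / 16) ^ m ≤ (((K : ℝ) - 1) / K) ^ N := by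
    calc ((1 : ℝ) / 16) ^ m ≤ ((((K : ℝ) - 1) / K) ^ K) ^ m :=
          pow_le_pow_left₀ (by norm_num) (theta_pow K hK) m
      _ = (((K : ℝ) - 1) / K) ^ (m * K) := by rw [← pow_mul, mul_comm]
      _ ≤ (((K : ℝ) - 1) / K) ^ N := pow_le_pow_of_le_one h0 h1 hm
  refine phaseA K (by omega) F (by positivity) hFV hsub fun k hS hA hB => ?_
  have h2 := phaseB K N hK hN F hd hFV hsub hT k hS hA hB
  have h3 := mul_le_mul_of_nonneg_right hpow hd
  linarith

end R766.FV
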