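import Pool.Agent.R766.FV.Det4
import Pool.Agent.R766.FV.Phase

/-!
At least four favorite one-side sites, infinitely often.
-/

set_option autoImplicit false
set_option exponentiation.threshold 2000

open Filter Topology

namespace R766.FV

lemma B_append_le (k h : List Bool) (hS : S h = 0) : B (k ++ h) ≤ B k + B h := by
  obtain ⟨x, hx, hxB⟩ := exists_B (k ++ h)
  rw [← hxB, dn_append k h hS]
  exact add_le_add (le_B _ _ hx) (le_B _ _ hx)

lemma le_A_append (k h : List Bool) (hS : S h = 0) : A k ≤ A (k ++ h) := by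
  obtain ⟨x, hx, hxA⟩ := exists_A k
  have := le_A (k ++ h) x hx
  rw [up_append k h hS] at this
  omega

/-- The supremum of the probabilities to avoid `G4`. -/
noncomputable def V4 : ℝ := ⨆ h, W G4 h

lemma V4_nonneg : 0 ≤ V4 := sup_nonneg G4

lemma W_le_V4 (h : List Bool) : W G4 h ≤ V4 := le_ciSup (bdd_W G4) h

/-- The constant of a change of the lead. -/
noncomputable def d3 : ℝ := 1 / 4 * (1 / 16) ^ 464

lemma d3_pos : 0 < d3 := by unfold d3; positivity

lemma d3_le : d3 ≤ 1 := by
  unfold d3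
  have : ((1 : ℝ) / 16) ^ 464 ≤ 1 := pow_le_one₀ (by norm_num) (by norm_num)
  generalize ((1 : ℝ) / 16) ^ 464 = q at this ⊢
  linarith

open Classical in
lemma W_neg_lead {h : List Bool} (hS : S h = 0) (hAB : A h < B h) (h0 : 2 * up h 0 ≤ B h)
    (h1 : 2 * dn h (-1) ≤ B h) (hB : 400 ≤ B h) : W G4 h ≤ (1 - d3) * V4 := by
  have hV := V4_nonneg
  set K : ℕ := B h / 200 with hK
  set F : List Bool → ℝ := fun k => if HitBy G4 h k then 0 else W G4 (k ++ h) with hF
  have hF0 : ∀ k, 0 ≤ F k := by
    intro k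
    simp only [hF]
    split_ifs
    · exact le_rfl
    · exact W_nonneg _ _
  have hFV : ∀ k, F k ≤ V4 := by
    intro k
    simp only [hF]
    split_ifs
    · exact hV
    · exact W_le_V4 _
  have hcons : ∀ k b, ¬ HitBy G4 h k → F (b :: k) = W G4 (b :: (k ++ h)) := by
    intro k b hk
    simp only [hF]
    by_cases h2 : HitBy G4 h (b :: k)
    · rw [if_pos h2]
      rcases h2 with h3 | h3
      · rw [W_of_mem G4 h3]
      · exact absurd h3 hk
    · rw [if_neg h2]
      rfl
  have hsub : ∀ k, F k ≤ (F (false :: k) + F (true :: k)) / 2 := by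
    intro k
    by_cases hk : HitBy G4 h k
    · have e : F k = 0 := by simp only [hF]; rw [if_pos hk]
      rw [e]
      have := hF0 (false :: k)
      have := hF0 (true :: k)
      linarith
    · have e : F k = W G4 (k ++ h) := by simp only [hF]; rw [if_neg hk]
      rw [e, hcons k false hk, hcons k true hk]
      exact W_le_avg G4 (k ++ h)
  have hT : ∀ k, B h + 64 * K ≤ A k → B k < 64 * K → up k 0 < 64 * K → dn k (-1) < 64 * K →
      F k ≤ V4 - V4 := by
    intro k k1 k2 k3 k4
    have hhit : HitBy G4 h k := by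
      refine change'' hAB ?_ ?_ ?_
      · rw [up_append k h hS]; omega
      · rw [dn_append k h hS]; omega
      · have e1 := B_append_le k h hS
        have e2 := le_A_append k h hS
        omega
    have e : F k = 0 := by simp only [hF]; rw [if_pos hhit]
    rw [e, sub_self]
  have key := phases K (B h + 64 * K) 464 (by omega) (by omega) (by omega) F (d := V4) hV hFV
    hsub hT
  have e : W G4 h ≤ F [] := by
    simp only [hF]
    by_cases hk : HitBy G4 h []
    · rw [if_pos hk, W_of_mem G4 hk]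
    · rw [if_neg hk]
      exact le_rfl
  unfold d3
  linarith

lemma W_lead {h : List Bool} (hS : S h = 0) {K : ℕ} (hK : 1 ≤ K) (hA : 400 * K ≤ A h)
    (h0 : up h 0 ≤ 65 * K) (h1 : dn h (-1) ≤ 65 * K) : W G4 h ≤ (1 - d3) * V4 := by
  have hV := V4_nonneg
  rcases lt_trichotomy (A h) (B h) with h2 | h2 | h2
  · exact W_neg_lead hS h2 (by omega) (by omega) (by omega)
  · rw [W_of_mem G4 (G4_of_zero hS h2 (by omega) (by omega))]
    exact mul_nonneg (by linarith [d3_le]) hV
  · rw [← W_G4_flip]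
    refine W_neg_lead (by rw [S_flip, hS, neg_zero]) (by rw [A_flip, B_flip]; exact h2) ?_ ?_ ?_
    · rw [up_flip, B_flip]; norm_num; omega
    · rw [dn_flip, B_flip]; norm_num; omega
    · rw [B_flip]; omega

lemma W_big {h : List Bool} {K : ℕ} (hK : 1 ≤ K) (hA : 400 * K ≤ A h)
    (h0 : up h 0 ≤ 65 * K) (h1 : dn h (-1) ≤ 65 * K) : W G4 h ≤ (1 - d3) * V4 := by
  have hV := V4_nonneg
  refine maxp (W G4) (fun h => S h = 0) (fun h => 400 * K ≤ A h ∧ up h 0 ≤ 65 * K ∧
    dn h (-1) ≤ 65 * K) (mul_nonneg (by linarith [d3_le]) hV) (W_le_one G4) (W_le_avg G4)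
    (fun h' hI hS => W_lead hS hK hI.1 hI.2.1 hI.2.2) ?_ h ⟨hA, h0, h1⟩ (hit 0 h)
  rintro h' b ⟨i1, i2, i3⟩ hS
  refine ⟨i1.trans (A_le_cons b h'), ?_, ?_⟩
  · rw [up_cons, if_neg (fun h2 => hS h2.2), add_zero]; exact i2
  · rw [dn_cons, if_neg (fun h2 => hS (by rw [h2.2]; norm_num)), add_zero]; exact i3

/-- The final constant. -/
noncomputable def d0 : ℝ := 1 / 4 * (1 / 16) ^ 400 * d3

lemma W_origin {h : List Bool} (hS : S h = 0) : W G4 h ≤ (1 - d0) * V4 := by
  have hV := V4_nonneg
  set K : ℕ := max (Mx h) 2 with hK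
  have hT : ∀ k, 400 * K ≤ A k → B k < 64 * K → up k 0 < 64 * K → dn k (-1) < 64 * K →
      (fun k => W G4 (k ++ h)) k ≤ V4 - d3 * V4 := by
    intro k k1 k2 k3 k4
    have e1 := le_A_append k h hS
    have e2 := up_append k h hS 0
    have e3 := dn_append k h hS (-1)
    have e4 := up_le_Mx h 0
    have e5 := dn_le_Mx h (-1)
    have := W_big (h := k ++ h) (K := K) (by omega) (by omega) (by omega) (by omega)
    simp only
    linarith
  have key := phases K (400 * K) 400 (by omega) (by omega) (by omega) (fun k => W G4 (k ++ h))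
    (d := d3 * V4) (mul_nonneg d3_pos.le hV) (fun k => W_le_V4 _) (fun k => W_le_avg G4 (k ++ h))
    hT
  simp only [List.nil_append] at key
  unfold d0
  linarith

theorem W_G4 (h : List Bool) : W G4 h = 0 := by
  have hV := V4_nonneg
  have hp : 0 < d0 := by unfold d0; have := d3_pos; positivity
  have hp1 : d0 ≤ 1 := by
    unfold d0
    have h1 : ((1 : ℝ) / 16) ^ 400 ≤ 1 := pow_le_one₀ (by norm_num) (by norm_num)
    have h2 := d3_le
    have h3 := d3_pos
    have h4 : (0 : ℝ) < (1 / 16) ^ 400 := by positivity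
    generalize ((1 : ℝ) / 16) ^ 400 = q at h1 h4 ⊢
    nlinarith [mul_le_mul h1 h2 h3.le zero_le_one]
  refine W_zero_of_sup G4 (c := 1 - d0) (by linarith) (fun h => ?_) h
  refine maxp (W G4) (fun h => S h = 0) (fun _ => True) (mul_nonneg (by linarith) hV)
    (W_le_one G4) (W_le_avg G4) (fun h' _ hS => W_origin hS) (fun _ _ _ _ => trivial) h trivial
    (hit 0 h)

end R766.FV
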