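import Pool.Agent.R766.FV.Osc

/-!
Independent fair signs and the averages over continuations.
-/

set_option autoImplicit false

open MeasureTheory ProbabilityTheory Filter Topology
open scoped ENNReal

namespace R766.FV

/-- The list of the first `n` values, the latest one first. -/
def hl (β : ℕ → Bool) : ℕ → List Bool
  | 0 => []
  | n + 1 => β n :: hl β n

lemma hl_eq_iff (β b : ℕ → Bool) (n : ℕ) : hl β n = hl b n ↔ ∀ i < n, β i = b i := by
  induction n with
  | zero => simp [hl]
  | succ n ih =>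
    simp only [hl, List.cons.injEq, ih]
    constructor
    · rintro ⟨h1, h2⟩ i hi
      rcases Nat.lt_succ_iff_lt_or_eq.1 hi with h3 | h3
      · exact h2 i h3
      · rw [h3]; exact h1
    · intro h
      exact ⟨h n (by omega), fun i hi => h i (by omega)⟩

/-- Independent fair signs. -/
structure IsSteps {Ω : Type*} {_ : MeasurableSpace Ω} (P : Measure Ω) (X : ℕ → Ω → ℤ) : Prop where
  prob : IsProbabilityMeasure P
  meas : ∀ n, Measurable (X n)
  indep : iIndepFun X P
  plus : ∀ n, P {ω | X n ω = 1} = 1 / 2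
  minus : ∀ n, P {ω | X n ω = -1} = 1 / 2

section

variable {Ω : Type*} {mΩ : MeasurableSpace Ω} {P : Measure Ω} {X : ℕ → Ω → ℤ}

/-- The signs as Booleans. -/
def sg (X : ℕ → Ω → ℤ) (ω : Ω) (n : ℕ) : Bool := decide (X n ω = 1)

lemma step_prob (hX : IsSteps P X) (n : ℕ) (c : Bool) :
    P (X n ⁻¹' {v | decide (v = 1) = c}) = 1 / 2 := by
  haveI := hX.prob
  cases c
  · have e : X n ⁻¹' {v | decide (v = 1) = false} = {ω | X n ω = 1}ᶜ := by
      ext ω; simp
    have hm : MeasurableSet {ω | X n ω = 1} := hX.meas n (MeasurableSet.singleton 1)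
    rw [e, prob_compl_eq_one_sub hm, hX.plus]
    exact ENNReal.sub_half ENNReal.one_ne_top
  · have e : X n ⁻¹' {v | decide (v = 1) = true} = {ω | X n ω = 1} := by
      ext ω; simp
    rw [e, hX.plus]

lemma ae_pm (hX : IsSteps P X) : ∀ᵐ ω ∂P, ∀ n, X n ω = 1 ∨ X n ω = -1 := by
  haveI := hX.prob
  rw [ae_all_iff]
  intro n
  have h1 : P ({ω | X n ω = 1} ∪ {ω | X n ω = -1}) = 1 := by
    rw [measure_union]
    · rw [hX.plus, hX.minus]
      exact ENNReal.add_halves 1
    · rw [Set.disjoint_left]
      intro ω h1 h2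
      have h3 : X n ω = 1 := h1
      have h4 : X n ω = -1 := h2
      omega
    · exact hX.meas n (MeasurableSet.singleton (-1))
  have h2 : MeasurableSet ({ω | X n ω = 1} ∪ {ω | X n ω = -1}) :=
    (hX.meas n (MeasurableSet.singleton 1)).union (hX.meas n (MeasurableSet.singleton (-1)))
  have h3 : P ({ω | X n ω = 1} ∪ {ω | X n ω = -1})ᶜ = 0 := by
    rw [prob_compl_eq_zero_iff h2]; exact h1
  rw [ae_iff]
  refine measure_mono_null ?_ h3
  intro ω hω
  simpa using hω

lemma cyl_prob (hX : IsSteps P X) (n : ℕ) (b : ℕ → Bool) :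
    P {ω | ∀ i < n, sg X ω i = b i} = (1 / 2) ^ n := by
  have e : {ω | ∀ i < n, sg X ω i = b i} =
      ⋂ i ∈ Finset.range n, X i ⁻¹' {v | decide (v = 1) = b i} := by
    ext ω
    simp only [Set.mem_ofPred_eq, Set.mem_iInter, Finset.mem_range, Set.mem_preimage]
    rfl
  rw [e, hX.indep.measure_inter_preimage_eq_mul (Finset.range n) (fun i _ => trivial)]
  rw [Finset.prod_congr rfl (fun i _ => step_prob hX i (b i))]
  simp

lemma surv (hX : IsSteps P X) (G : List Bool → Prop) (N : ℕ) : ∀ (n : ℕ) (b : ℕ → Bool),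
    P {ω | (∀ i < n, sg X ω i = b i) ∧ ∀ k ≤ N, ¬ G (hl (sg X ω) (n + k))} ≤
      (1 / 2) ^ n * ENNReal.ofReal (r G N (hl b n)) := by
  induction N with
  | zero =>
    intro n b
    by_cases hG : G (hl b n)
    · have e : {ω | (∀ i < n, sg X ω i = b i) ∧ ∀ k ≤ 0, ¬ G (hl (sg X ω) (n + k))} = ∅ := by
        ext ω
        simp only [Set.mem_ofPred_eq, Set.mem_empty_iff_false, iff_false]
        rintro ⟨h1, h2⟩
        apply h2 0 le_rfl
        rw [add_zero, (hl_eq_iff _ _ n).2 h1]
        exact hG
      rw [e, measure_empty]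
      exact zero_le
    · rw [r_zero G hG, ENNReal.ofReal_one, mul_one, ← cyl_prob hX n b]
      exact measure_mono fun ω hω => hω.1
  | succ N ih =>
    intro n b
    by_cases hG : G (hl b n)
    · have e : {ω | (∀ i < n, sg X ω i = b i) ∧ ∀ k ≤ N + 1, ¬ G (hl (sg X ω) (n + k))} = ∅ := by
        ext ω
        simp only [Set.mem_ofPred_eq, Set.mem_empty_iff_false, iff_false]
        rintro ⟨h1, h2⟩
        apply h2 0 (by omega)
        rw [add_zero, (hl_eq_iff _ _ n).2 h1]
        exact hG
      rw [e, measure_empty]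
      exact zero_le
    · let bc : Bool → ℕ → Bool := fun c i => if i < n then b i else c
      have hbc : ∀ c, hl (bc c) (n + 1) = c :: hl b n := by
        intro c
        show bc c n :: hl (bc c) n = _
        congr 1
        · simp only [bc]; rw [if_neg (by omega)]
        · rw [hl_eq_iff]
          intro i hi
          simp only [bc]; rw [if_pos hi]
      let E : Bool → Set Ω := fun c => {ω | (∀ i < n + 1, sg X ω i = bc c i) ∧
        ∀ k ≤ N, ¬ G (hl (sg X ω) (n + 1 + k))}
      have hsub : {ω | (∀ i < n, sg X ω i = b i) ∧ ∀ k ≤ N + 1, ¬ G (hl (sg X ω) (n + k))} ⊆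
          E false ∪ E true := by
        intro ω hω
        have hmem : ω ∈ E (sg X ω n) := by
          refine ⟨fun i hi => ?_, fun k hk => ?_⟩
          · simp only [bc]
            split_ifs with h3
            · exact hω.1 i h3
            · rw [show i = n by omega]
          · have := hω.2 (k + 1) (by omega)
            rw [show n + 1 + k = n + (k + 1) by ring]
            exact this
        rcases hs : sg X ω n with _ | _
        · rw [hs] at hmem; exact Or.inl hmem
        · rw [hs] at hmem; exact Or.inr hmem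
      have hE : ∀ c, P (E c) ≤ (1 / 2) ^ (n + 1) * ENNReal.ofReal (r G N (c :: hl b n)) := by
        intro c
        have := ih (n + 1) (bc c)
        rw [hbc] at this
        exact this
      calc P {ω | (∀ i < n, sg X ω i = b i) ∧ ∀ k ≤ N + 1, ¬ G (hl (sg X ω) (n + k))}
          ≤ P (E false ∪ E true) := measure_mono hsub
        _ ≤ P (E false) + P (E true) := measure_union_le _ _
        _ ≤ (1 / 2) ^ (n + 1) * ENNReal.ofReal (r G N (false :: hl b n)) +
            (1 / 2) ^ (n + 1) * ENNReal.ofReal (r G N (true :: hl b n)) :=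
            add_le_add (hE false) (hE true)
        _ = (1 / 2) ^ n * ENNReal.ofReal (r G (N + 1) (hl b n)) := by
            rw [r_succ G hG, ← mul_add, ← ENNReal.ofReal_add (r_nonneg _ _ _) (r_nonneg _ _ _),
              pow_succ, mul_assoc]
            congr 1
            rw [ENNReal.ofReal_div_of_pos (by norm_num), ENNReal.ofReal_ofNat, one_div,
              ENNReal.div_eq_inv_mul]

theorem never_null (hX : IsSteps P X) (G : List Bool → Prop) (hG : ∀ h, W G h = 0) :
    ∀ᵐ ω ∂P, ∀ n, ∃ k, G (hl (sg X ω) (n + k)) := by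
  haveI := hX.prob
  rw [ae_all_iff]
  intro n
  have h0 : ∀ b : ℕ → Bool,
      P {ω | (∀ i < n, sg X ω i = b i) ∧ ∀ k, ¬ G (hl (sg X ω) (n + k))} = 0 := by
    intro b
    have h1 : Tendsto (fun N => (1 / 2 : ℝ≥0∞) ^ n * ENNReal.ofReal (r G N (hl b n))) atTop
        (𝓝 0) := by
      have h2 := tendsto_r G (hl b n)
      rw [hG] at h2
      have h3 := ENNReal.tendsto_ofReal h2
      rw [ENNReal.ofReal_zero] at h3
      have h4 := ENNReal.Tendsto.const_mul h3 (a := (1 / 2 : ℝ≥0∞) ^ n)
        (Or.inr (by simp))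
      simpa using h4
    refine le_antisymm (ge_of_tendsto' h1 fun N => ?_) zero_le
    refine le_trans (measure_mono ?_) (surv hX G N n b)
    intro ω hω
    exact ⟨hω.1, fun k _ => hω.2 k⟩
  have h1 : P (⋃ z : Fin n → Bool, {ω | (∀ i < n, sg X ω i =
      (fun j : ℕ => if h : j < n then z ⟨j, h⟩ else true) i) ∧
      ∀ k, ¬ G (hl (sg X ω) (n + k))}) = 0 :=
    measure_iUnion_null fun z => h0 _
  rw [ae_iff]
  refine measure_mono_null ?_ h1
  intro ω hω
  simp only [Set.mem_ofPred_eq, not_exists] at hω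
  simp only [Set.mem_iUnion]
  refine ⟨fun j => sg X ω j, fun i hi => ?_, hω⟩
  simp only
  rw [dif_pos hi]

end

end R766.FV
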