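import Pool.Agent.R766.FV.Core

/-!
The difference of the largest outward crossing numbers of the two sides changes sign infinitely
often, almost surely.
-/

set_option autoImplicit false

open Filter Topology

namespace R766.FV

/-- `A` has just increased. -/
def GI (h : List Bool) : Prop := ∃ h', h = true :: h' ∧ A h = A h' + 1

lemma bdd_W (G : List Bool → Prop) : BddAbove (Set.range (W G)) :=
  ⟨1, by rintro _ ⟨h, rfl⟩; exact W_le_one G h⟩

lemma sup_nonneg (G : List Bool → Prop) : 0 ≤ ⨆ h, W G h :=
  (W_nonneg G []).trans (le_ciSup (bdd_W G) [])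

lemma W_zero_of_sup (G : List Bool → Prop) {c : ℝ} (hc : c < 1)
    (H : ∀ h, W G h ≤ c * ⨆ h, W G h) (h : List Bool) : W G h = 0 := by
  set V := ⨆ h, W G h with hV
  have h1 : V ≤ c * V := ciSup_le H
  have h2 : 0 ≤ V := sup_nonneg G
  have h3 : V ≤ 0 := by nlinarith
  have h4 : W G h ≤ V := le_ciSup (bdd_W G) h
  exact le_antisymm (h4.trans h3) (W_nonneg G h)

lemma A_true (h : List Bool) (hS : 0 ≤ S h) : A (true :: h) = max (A h) (up h (S h) + 1) := by
  show (if true = true ∧ 0 ≤ S h then max (A h) (up h (S h) + 1) else A h) = _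
  rw [if_pos ⟨rfl, hS⟩]

lemma squeeze_r {G G' : List Bool → Prop} (hGG : ∀ h, G' h → G h) (h : List Bool)
    (hr : Tendsto (fun N => r G' N h) atTop (𝓝 0)) : Tendsto (fun N => r G N h) atTop (𝓝 0) :=
  squeeze_zero (fun N => r_nonneg G N h) (fun N => r_mono hGG N h) hr

theorem W_GI (h : List Bool) : W GI h = 0 := by
  refine W_zero_of_sup GI (c := 1 / 2) (by norm_num) (fun h => ?_) h
  set V := ⨆ h, W GI h with hV
  have hV0 : 0 ≤ V := sup_nonneg GI
  obtain ⟨x, hx, hxA⟩ := exists_A h
  set a := A h with ha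
  refine maxp (W GI) (fun h' => S h' = x ∨ GI h') (fun h' => (A h' = a ∧ up h' x = a) ∨ GI h')
    (by positivity) (W_le_one GI) (W_le_avg GI) ?_ ?_ h (Or.inl ⟨rfl, hxA⟩) ?_
  · intro h' hI hG
    by_cases hGI : GI h'
    · rw [W_of_mem GI hGI]; positivity
    · have hI' := hI.resolve_right hGI
      have hS : S h' = x := hG.resolve_right hGI
      have h1 : GI (true :: h') := by
        refine ⟨h', rfl, ?_⟩
        rw [A_true h' (by omega), hS, hI'.1, hI'.2]
        omega
      have h2 := W_le_avg GI h'
      rw [W_of_mem GI h1] at h2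
      have h3 : W GI (false :: h') ≤ V := le_ciSup (bdd_W GI) _
      linarith
  · intro h' b hI hG
    have hGI : ¬ GI h' := fun h1 => hG (Or.inr h1)
    have hI' := hI.resolve_right hGI
    have hS : S h' ≠ x := fun h1 => hG (Or.inl h1)
    have h1 := A_le_cons b h'
    have h2 := A_cons_le b h'
    by_cases h3 : A (b :: h') = A h'
    · left
      refine ⟨h3.trans hI'.1, ?_⟩
      rw [up_cons, if_neg (fun h4 => hS h4.2), add_zero]
      exact hI'.2
    · right
      cases b
      · exact absurd (A_false h') h3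
      · exact ⟨h', rfl, by omega⟩
  · exact squeeze_r (G' := fun h' => S h' = x) (fun h' h1 => Or.inl h1) h (hit x h)

/-! ### The difference is unbounded -/

/-- Alternating continuation. -/
def ptl : ℕ → List Bool
  | 0 => []
  | j + 1 => true :: false :: ptl j

lemma length_ptl (j : ℕ) : (ptl j).length = 2 * j := by
  induction j with
  | zero => rfl
  | succ j ih => simp [ptl, ih]; ring

/-- The walk has just crossed a leading edge on the positive side. -/
def J (h : List Bool) : Prop := ∃ x : ℤ, 0 ≤ x ∧ S h = x + 1 ∧ up h x = A h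

lemma J_of_GI {h : List Bool} (hG : GI h) : J h := by
  obtain ⟨h', rfl, hA⟩ := hG
  by_cases hS : 0 ≤ S h'
  · rw [A_true h' hS] at hA
    have h1 := le_A h' (S h') hS
    have h2 : up h' (S h') = A h' := by omega
    refine ⟨S h', hS, by simp [S_cons], ?_⟩
    rw [up_cons, if_pos ⟨rfl, rfl⟩, A_true h' hS]
    omega
  · exfalso
    have : A (true :: h') = A h' := by
      show (if true = true ∧ 0 ≤ S h' then max (A h') (up h' (S h') + 1) else A h') = A h'
      rw [if_neg (fun h1 => hS h1.2)]
    omega

lemma J_step {h : List Bool} (hJ : J h) : J (true :: false :: h) ∧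
    A (true :: false :: h) = A h + 1 ∧ B (true :: false :: h) = B h := by
  obtain ⟨x, hx, hS, hA⟩ := hJ
  have hS1 : S (false :: h) = x := by rw [S_cons, hS]; simp
  have hu1 : up (false :: h) x = A h := by rw [up_cons]; simp [hA]
  have hA1 : A (false :: h) = A h := A_false h
  have hA2 : A (true :: false :: h) = A h + 1 := by
    rw [A_true _ (by omega), hS1, hu1, hA1]
    omega
  have hB1 : B (false :: h) = B h := by
    show (if false = false ∧ S h ≤ 0 then max (B h) (dn h (S h - 1) + 1) else B h) = B h
    rw [if_neg]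
    rintro ⟨_, h1⟩
    omega
  refine ⟨⟨x, hx, ?_, ?_⟩, hA2, ?_⟩
  · rw [S_cons, hS1]; simp
  · rw [up_cons, if_pos ⟨rfl, hS1⟩, hu1, hA2]
  · rw [B_true, hB1]

lemma J_ptl {h : List Bool} (hJ : J h) (j : ℕ) : J (ptl j ++ h) ∧
    A (ptl j ++ h) = A h + j ∧ B (ptl j ++ h) = B h := by
  induction j with
  | zero => exact ⟨hJ, rfl, rfl⟩
  | succ j ih =>
    obtain ⟨h1, h2, h3⟩ := ih
    obtain ⟨h4, h5, h6⟩ := J_step h1
    refine ⟨h4, ?_, ?_⟩
    · show A (true :: false :: (ptl j ++ h)) = _
      rw [h5, h2]; ring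
    · show B (true :: false :: (ptl j ++ h)) = _
      rw [h6, h3]

lemma W_chain (G : List Bool → Prop) {V : ℝ} (hV : ∀ h, W G h ≤ V) (h k : List Bool) :
    W G h ≤ (1 - (1 / 2) ^ k.length) * V + (1 / 2) ^ k.length * W G (k ++ h) := by
  induction k with
  | nil => simp
  | cons b k ih =>
    have h1 : W G (k ++ h) ≤ V / 2 + W G (b :: (k ++ h)) / 2 := by
      have h2 := W_le_avg G (k ++ h)
      have h3 := hV (false :: (k ++ h))
      have h4 := hV (true :: (k ++ h))
      cases b <;> linarith
    have h2 : (0 : ℝ) < (1 / 2) ^ k.length := by positivity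
    have h3 := mul_le_mul_of_nonneg_left h1 h2.le
    rw [List.length_cons, List.cons_append, pow_succ]
    nlinarith

theorem unb (C : ℕ) (h : List Bool) :
    W (fun h => (C : ℤ) ≤ |(A h : ℤ) - B h|) h = 0 := by
  set G : List Bool → Prop := fun h => (C : ℤ) ≤ |(A h : ℤ) - B h| with hG
  have hp : (0 : ℝ) < (1 / 2) ^ (2 * (2 * C)) := by positivity
  have hp1 : ((1 : ℝ) / 2) ^ (2 * (2 * C)) ≤ 1 := pow_le_one₀ (by norm_num) (by norm_num)
  refine W_zero_of_sup G (c := 1 - (1 / 2) ^ (2 * (2 * C))) (by linarith) (fun h => ?_) h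
  set V := ⨆ h, W G h with hV
  have hV0 : 0 ≤ V := sup_nonneg G
  have hVle : ∀ h, W G h ≤ V := fun h => le_ciSup (bdd_W G) h
  have hθ : 0 ≤ (1 - (1 / 2) ^ (2 * (2 * C))) * V := mul_nonneg (by linarith) hV0
  refine maxp (W G) GI (fun _ => True) hθ (W_le_one G) (W_le_avg G) ?_ (fun _ _ _ _ => trivial)
    h trivial ?_
  · intro h' _ hGI
    by_cases h1 : G h'
    · rw [W_of_mem G h1]; exact hθ
    · obtain ⟨_, h3, h4⟩ := J_ptl (J_of_GI hGI) (2 * C)
      have h2 : G (ptl (2 * C) ++ h') := by
        simp only [hG] at h1 ⊢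
        rw [h3, h4]
        push_cast
        rw [not_le, abs_lt] at h1
        rw [le_abs]
        left
        omega
      have h5 := W_chain G hVle h' (ptl (2 * C))
      rw [W_of_mem G h2, length_ptl, mul_zero, add_zero] at h5
      exact h5
  · have := tendsto_r GI h
    rwa [W_GI h] at this

/-! ### Sign changes -/

/-- The negative side leads or there is a tie. -/
def LdL (h : List Bool) : Prop := A h ≤ B h

/-- The positive side leads or there is a tie. -/
def LdR (h : List Bool) : Prop := B h ≤ A h

lemma r_pair (h : List Bool) (hS : S h = 0) (N : ℕ) : ∀ k : List Bool,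
    r LdL N (k ++ h) + r LdL N (flip k ++ h) ≤
      1 + r (fun k => ((A h : ℕ) : ℤ) ≤ |(A k : ℤ) - B k|) N k := by
  set GC : List Bool → Prop := fun k => ((A h : ℕ) : ℤ) ≤ |(A k : ℤ) - B k| with hGC
  have key : ∀ k, GC k → LdL (k ++ h) ∨ LdL (flip k ++ h) := by
    intro k hk
    simp only [hGC] at hk
    have a1 := A_append_le k h hS
    have a2 := A_append_le (flip k) h hS
    have b1 := le_B_append k h hS
    have b2 := le_B_append (flip k) h hS
    rw [A_flip] at a2
    rw [B_flip] at b2
    unfold LdL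
    rw [le_abs] at hk
    rcases hk with hk | hk
    · right; omega
    · left; omega
  have aux : ∀ k, GC k → ∀ N, r LdL N (k ++ h) + r LdL N (flip k ++ h) ≤ 1 := by
    intro k hk N
    rcases key k hk with h1 | h1
    · rw [r_of_mem LdL h1]
      have := r_le_one LdL N (flip k ++ h)
      linarith
    · rw [r_of_mem LdL h1]
      have := r_le_one LdL N (k ++ h)
      linarith
  induction N with
  | zero =>
    intro k
    by_cases hk : GC k
    · have := aux k hk 0
      have := r_nonneg GC 0 k
      linarith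
    · rw [r_zero GC hk]
      have := r_le_one LdL 0 (k ++ h)
      have := r_le_one LdL 0 (flip k ++ h)
      linarith
  | succ N ih =>
    intro k
    by_cases hk : GC k
    · have := aux k hk (N + 1)
      have := r_nonneg GC (N + 1) k
      linarith
    · rw [r_succ GC hk]
      have le_avg : ∀ h', r LdL (N + 1) h' ≤ (r LdL N (false :: h') + r LdL N (true :: h')) / 2 := by
        intro h'
        by_cases h1 : LdL h'
        · rw [r_of_mem LdL h1]
          have := r_nonneg LdL N (false :: h')
          have := r_nonneg LdL N (true :: h')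
          linarith
        · exact (r_succ LdL h1 N).le
      have h1 := le_avg (k ++ h)
      have h2 := le_avg (flip k ++ h)
      have h3 := ih (false :: k)
      have h4 := ih (true :: k)
      rw [flip_cons, List.cons_append, List.cons_append] at h3 h4
      simp only [Bool.not_false, Bool.not_true] at h3 h4
      linarith

lemma W_LdL_half (h : List Bool) (hS : S h = 0) : W LdL h ≤ 1 / 2 := by
  have h1 : ∀ N, 2 * r LdL N h ≤ 1 + r (fun k => ((A h : ℕ) : ℤ) ≤ |(A k : ℤ) - B k|) N [] := by
    intro N
    have := r_pair h hS N []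
    have e : (flip [] : List Bool) = [] := rfl
    rw [e, List.nil_append] at this
    linarith
  have h2 : Tendsto (fun N => 2 * r LdL N h) atTop (𝓝 (2 * W LdL h)) :=
    (tendsto_r LdL h).const_mul 2
  have h3 : Tendsto (fun N => 1 + r (fun k => ((A h : ℕ) : ℤ) ≤ |(A k : ℤ) - B k|) N []) atTop
      (𝓝 (1 + 0)) := by
    refine tendsto_const_nhds.add ?_
    have := tendsto_r (fun k => ((A h : ℕ) : ℤ) ≤ |(A k : ℤ) - B k|) []
    rwa [unb (A h) []] at this
  have := le_of_tendsto_of_tendsto' h2 h3 h1
  linarith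

theorem W_LdL (h : List Bool) : W LdL h = 0 := by
  have half : ∀ h, W LdL h ≤ 1 / 2 := by
    intro h
    refine maxp (W LdL) (fun h => S h = 0) (fun _ => True) (by norm_num) (W_le_one LdL)
      (W_le_avg LdL) (fun h' _ hS => W_LdL_half h' hS) (fun _ _ _ _ => trivial) h trivial (hit 0 h)
  have key : ∀ N, ∀ h, W LdL h ≤ 1 / 2 * r LdL N h := by
    intro N
    induction N with
    | zero =>
      intro h
      by_cases hG : LdL h
      · rw [W_of_mem LdL hG, r_of_mem LdL hG]; norm_num
      · rw [r_zero LdL hG]; linarith [half h]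
    | succ N ih =>
      intro h
      by_cases hG : LdL h
      · rw [W_of_mem LdL hG, r_of_mem LdL hG]; norm_num
      · rw [r_succ LdL hG, W_eq LdL hG]
        have := ih (false :: h)
        have := ih (true :: h)
        linarith
  have h1 := ge_of_tendsto' ((tendsto_r LdL h).const_mul (1 / 2)) fun N => key N h
  have h2 := W_nonneg LdL h
  linarith

lemma r_LdR (N : ℕ) : ∀ h, r LdR N h = r LdL N (flip h) := by
  have e : ∀ h, LdR h ↔ LdL (flip h) := by
    intro h
    unfold LdR LdL
    rw [A_flip, B_flip]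
  induction N with
  | zero =>
    intro h
    by_cases hG : LdR h
    · rw [r_of_mem LdR hG, r_of_mem LdL ((e h).1 hG)]
    · rw [r_zero LdR hG, r_zero LdL (fun h1 => hG ((e h).2 h1))]
  | succ N ih =>
    intro h
    by_cases hG : LdR h
    · rw [r_of_mem LdR hG, r_of_mem LdL ((e h).1 hG)]
    · rw [r_succ LdR hG, r_succ LdL (fun h1 => hG ((e h).2 h1)), ih, ih, flip_cons, flip_cons]
      simp only [Bool.not_false, Bool.not_true]
      ring

theorem W_LdR (h : List Bool) : W LdR h = 0 := by
  have h1 := tendsto_r LdR h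
  have h2 := tendsto_r LdL (flip h)
  have e : (fun N => r LdR N h) = fun N => r LdL N (flip h) := by
    funext N; exact r_LdR N h
  rw [e] at h1
  rw [tendsto_nhds_unique h1 h2, W_LdL]

end R766.FV
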